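import Pool.Agent.Run7.h33.AB.Aut

/-!
# Groups whose abelian subgroups have small bases
-/

set_option autoImplicit false
set_option linter.unusedSectionVars false

namespace Run7.h33.AB

section

variable {Q : Type} [Group Q]

/-- The three subgroups lemma. -/
theorem rotate_le {A B C N : Subgroup Q} [N.Normal] (h1 : ⁅⁅B, C⁆, A⁆ ≤ N)
    (h2 : ⁅⁅C, A⁆, B⁆ ≤ N) : ⁅⁅A, B⁆, C⁆ ≤ N := by
  have key : ∀ X : Subgroup Q, X ≤ N ↔ X.map (QuotientGroup.mk' N) = ⊥ := by
    intro X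
    rw [Subgroup.map_eq_bot_iff, QuotientGroup.ker_mk']
  rw [key, Subgroup.map_commutator, Subgroup.map_commutator] at h1 h2 ⊢
  exact Subgroup.commutator_commutator_eq_bot_of_rotate h1 h2

/-- The lower central series. -/
abbrev lcs (Q : Type) [Group Q] (i : ℕ) : Subgroup Q := (⊤ : Subgroup Q).lowerCentralSeries i

theorem lcs_succ (i : ℕ) : lcs Q (i + 1) = ⁅lcs Q i, (⊤ : Subgroup Q)⁆ := rfl

theorem comm_lcs (j : ℕ) : ∀ i, ⁅lcs Q i, lcs Q j⁆ ≤ lcs Q (i + j + 1) := by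
  induction j with
  | zero => exact fun i => le_rfl
  | succ j ih =>
    intro i
    rw [lcs_succ j, Subgroup.commutator_comm]
    refine rotate_le ?_ ?_
    · have h1 := ih (i + 1)
      rw [lcs_succ i, Subgroup.commutator_comm (lcs Q i) ⊤] at h1
      have e : i + 1 + j + 1 = i + (j + 1) + 1 := by ring
      rw [e] at h1
      exact h1
    · exact Subgroup.commutator_mono (ih i) le_rfl

theorem der_le_lcs (k : ℕ) : derivedSeries Q k ≤ lcs Q (2 ^ k - 1) := by
  induction k with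
  | zero => exact le_rfl
  | succ k ih =>
    rw [derivedSeries_succ]
    refine (Subgroup.commutator_mono ih ih).trans ((comm_lcs _ _).trans (le_of_eq ?_))
    congr 1
    have : 1 ≤ 2 ^ k := Nat.one_le_two_pow
    rw [pow_succ]
    omega

theorem lcs_bot [Finite Q] [Group.IsNilpotent Q] :
    lcs Q (Nat.log 2 (Nat.card Q) + 1) = ⊥ := by
  obtain ⟨m, hm⟩ := (Subgroup.nilpotent_iff_lowerCentralSeries (G := Q)).1 inferInstance
  have hanti : Antitone (lcs Q) := (⊤ : Subgroup Q).lowerCentralSeries_antitone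
  have key : ∀ i, lcs Q i = ⊥ ∨ 2 ^ i * Nat.card (lcs Q i) ≤ Nat.card Q := by
    intro i
    induction i with
    | zero =>
      right
      rw [pow_zero, one_mul]
      exact Subgroup.card_le_card_group _
    | succ i ih =>
      have h1 : lcs Q (i + 1) ≤ lcs Q i := hanti (Nat.le_succ i)
      rcases ih with h | h
      · left
        rw [h] at h1
        exact le_bot_iff.1 h1
      · by_cases heq : lcs Q (i + 1) = lcs Q i
        · left
          have h2 : ∀ d, lcs Q (i + d) = lcs Q i := by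
            intro d
            induction d with
            | zero => rfl
            | succ d ihd =>
              have e : i + (d + 1) = i + d + 1 := by ring
              rw [e, lcs_succ, ihd, ← lcs_succ, heq]
          have h3 : lcs Q i ≤ ⊥ := by
            rw [← h2 m, ← hm]
            exact hanti (Nat.le_add_left m i)
          rw [heq]
          exact le_bot_iff.1 h3
        · right
          obtain ⟨d, hd⟩ := Subgroup.card_dvd_of_le h1
          have hd2 : 2 ≤ d := by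
            by_contra hcon
            have hpos : 0 < Nat.card (lcs Q i) := Nat.card_pos
            interval_cases d
            · omega
            · rw [mul_one] at hd
              exact heq (Subgroup.eq_of_le_of_card_ge h1 hd.le)
          calc 2 ^ (i + 1) * Nat.card (lcs Q (i + 1)) = 2 ^ i * (Nat.card (lcs Q (i + 1)) * 2) := by
                ring
            _ ≤ 2 ^ i * (Nat.card (lcs Q (i + 1)) * d) :=
                Nat.mul_le_mul_left _ (Nat.mul_le_mul_left _ hd2)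
            _ = 2 ^ i * Nat.card (lcs Q i) := by rw [← hd]
            _ ≤ _ := h
  rcases key (Nat.log 2 (Nat.card Q) + 1) with h | h
  · exact h
  · exfalso
    have h1 : Nat.card Q < 2 ^ (Nat.log 2 (Nat.card Q) + 1) :=
      Nat.lt_pow_succ_log_self (by norm_num) _
    have h2 : 0 < Nat.card (lcs Q (Nat.log 2 (Nat.card Q) + 1)) := Nat.card_pos
    have h3 := Nat.le_mul_of_pos_right (2 ^ (Nat.log 2 (Nat.card Q) + 1)) h2
    omega

/-- The bound for the derived length. -/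
def dl (N : ℕ) : ℕ := Nat.log 2 (Nat.log 2 N + 1) + 1

theorem der_bot [Finite Q] [Group.IsNilpotent Q] : derivedSeries Q (dl (Nat.card Q)) = ⊥ := by
  have h1 : Nat.log 2 (Nat.card Q) + 1 < 2 ^ dl (Nat.card Q) :=
    Nat.lt_pow_succ_log_self (by norm_num) _
  have h2 : lcs Q (2 ^ dl (Nat.card Q) - 1) ≤ lcs Q (Nat.log 2 (Nat.card Q) + 1) :=
    (⊤ : Subgroup Q).lowerCentralSeries_antitone (by omega)
  rw [lcs_bot] at h2
  exact le_bot_iff.1 ((der_le_lcs _).trans h2)

end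

section

variable {Γ V : Type} [Group Γ] [Finite Γ] [MulAction Γ V] [Fintype V] [DecidableEq V] {b : ℕ}

/-- Groups of derived length `k`. -/
theorem base_der
    (hab : ∀ M : Subgroup Γ, (∀ a ∈ M, ∀ b ∈ M, a * b = b * a) → ∃ S : Finset V, S.card ≤ b ∧
      ∀ g ∈ M, (∀ v ∈ S, g • v = v) → g = 1) (k : ℕ) :
    ∀ H : Subgroup Γ, derivedSeries H k = ⊥ → ∃ S : Finset V, S.card ≤ k * b ∧
      ∀ g ∈ H, (∀ v ∈ S, g • v = v) → g = 1 := by
  induction k with
  | zero =>
    intro H hH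
    refine ⟨∅, by simp, fun g hg _ => ?_⟩
    have h1 : (⟨g, hg⟩ : H) ∈ derivedSeries H 0 := Subgroup.mem_top _
    rw [hH, Subgroup.mem_bot] at h1
    exact congrArg Subtype.val h1
  | succ k ih =>
    intro H hH
    obtain ⟨M, hM⟩ : ∃ M, M = (derivedSeries H k).map H.subtype := ⟨_, rfl⟩
    have hMc : ∀ a ∈ M, ∀ b ∈ M, a * b = b * a := by
      intro a ha b hb
      rw [hM, Subgroup.mem_map] at ha hb
      obtain ⟨a', ha', rfl⟩ := ha
      obtain ⟨b', hb', rfl⟩ := hb
      have h1 := Subgroup.commutator_mem_commutator ha' hb'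
      rw [← derivedSeries_succ, hH, Subgroup.mem_bot, commutatorElement_eq_one_iff_mul_comm] at h1
      rw [← map_mul, ← map_mul, h1]
    obtain ⟨S, hS, hSf⟩ := hab M hMc
    obtain ⟨Q, hQ⟩ : ∃ Q : Subgroup Γ, ∀ g, g ∈ Q ↔ g ∈ H ∧ ∀ v ∈ S, g • v = v := by
      refine ⟨{ carrier := {g | g ∈ H ∧ ∀ v ∈ S, g • v = v}, one_mem' := ?_, mul_mem' := ?_,
                inv_mem' := ?_ }, fun g => Iff.rfl⟩
      · intro a b ha hb
        refine ⟨H.mul_mem ha.1 hb.1, fun v hv => ?_⟩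
        rw [mul_smul, hb.2 v hv, ha.2 v hv]
      · exact ⟨H.one_mem, fun v _ => one_smul _ v⟩
      · intro a ha
        exact ⟨H.inv_mem ha.1, fun v hv => inv_smul_eq_iff.2 (ha.2 v hv).symm⟩
    have hQH : Q ≤ H := fun g hg => ((hQ g).1 hg).1
    have hder : derivedSeries Q k = ⊥ := by
      rw [Subgroup.eq_bot_iff_forall]
      intro q hq
      have h1 : Subgroup.inclusion hQH q ∈ derivedSeries H k :=
        map_derivedSeries_le_derivedSeries (Subgroup.inclusion hQH) k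
          (Subgroup.mem_map_of_mem _ hq)
      have h2 : (q : Γ) ∈ M := by
        rw [hM, Subgroup.mem_map]
        exact ⟨_, h1, rfl⟩
      exact Subtype.ext (hSf q h2 ((hQ q).1 q.2).2)
    obtain ⟨S', hS', hSf'⟩ := ih Q hder
    refine ⟨S ∪ S', ?_, fun g hg hgS => ?_⟩
    · have h1 := Finset.card_union_le S S'
      have e : (k + 1) * b = k * b + b := by ring
      omega
    · refine hSf' g ((hQ g).2 ⟨hg, fun v hv => hgS v (Finset.mem_union_left _ hv)⟩)
        fun v hv => hgS v (Finset.mem_union_right _ hv)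

/-- Nilpotent groups. -/
theorem base_nil
    (hab : ∀ M : Subgroup Γ, (∀ a ∈ M, ∀ b ∈ M, a * b = b * a) → ∃ S : Finset V, S.card ≤ b ∧
      ∀ g ∈ M, (∀ v ∈ S, g • v = v) → g = 1) (H : Subgroup Γ) [Group.IsNilpotent H] (hb : 1 ≤ b)
    (hn : 2 ≤ Fintype.card V) :
    ∃ S : Finset V, S.card ≤ b * (2 * Nat.log 2 (Nat.log 2 (Fintype.card V)) +
      2 * Nat.log 2 b + 8) ∧ ∀ g ∈ H, (∀ v ∈ S, g • v = v) → g = 1 := by
  obtain ⟨n, hnn⟩ : ∃ n, n = Fintype.card V := ⟨_, rfl⟩
  rw [← hnn] at hn ⊢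
  obtain ⟨S, hS, hSf⟩ := base_der hab (dl (Nat.card H)) H der_bot
  refine ⟨S, hS.trans ?_, hSf⟩
  obtain ⟨L, hL⟩ : ∃ L, L = Nat.log 2 n := ⟨_, rfl⟩
  obtain ⟨Z, hZ⟩ : ∃ Z, Z = Nat.log 2 (Nat.log 2 (Nat.card H) + 1) := ⟨_, rfl⟩
  have hk : dl (Nat.card H) = Z + 1 := by
    rw [hZ]
    rfl
  rw [hk] at hS ⊢
  have hL1 : 1 ≤ L := by
    rw [hL]
    exact Nat.le_log_of_pow_le (by norm_num) (by omega)
  have h1 : Nat.card H ≤ n ^ S.card := by
    have h2 := card_le_pow (Γ := H) S ⊥ (fun g hg => by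
      rw [Subgroup.mem_bot]
      exact Subtype.ext (hSf g g.2 hg))
    rw [Subgroup.card_bot, mul_one, ← hnn] at h2
    exact h2
  have h2 : Nat.card H < 2 ^ ((L + 1) * ((Z + 1) * b)) := by
    have h3 : n < 2 ^ (L + 1) := by
      rw [hL]
      exact Nat.lt_pow_succ_log_self (by norm_num) n
    calc Nat.card H ≤ n ^ S.card := h1
      _ ≤ n ^ ((Z + 1) * b) := Nat.pow_le_pow_right (by omega) hS
      _ < (2 ^ (L + 1)) ^ ((Z + 1) * b) :=
          Nat.pow_lt_pow_left h3 (Nat.mul_pos (by omega) hb).ne'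
      _ = _ := by rw [← pow_mul]
  have h3 : Nat.log 2 (Nat.card H) < (L + 1) * ((Z + 1) * b) :=
    Nat.log_lt_of_lt_pow (Nat.card_pos).ne' h2
  have h4 : 2 ^ Z ≤ (L + 1) * b * (Z + 1) := by
    have h5 : 2 ^ Z ≤ Nat.log 2 (Nat.card H) + 1 := by
      rw [hZ]
      exact Nat.pow_log_le_self 2 (by omega)
    calc 2 ^ Z ≤ Nat.log 2 (Nat.card H) + 1 := h5
      _ ≤ (L + 1) * ((Z + 1) * b) := h3
      _ = _ := by ring
  have h5 : ∀ m : ℕ, (m + 1) ^ 2 ≤ 4 * 2 ^ m := by
    intro m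
    induction m with
    | zero => norm_num
    | succ m ih =>
      rcases Nat.lt_or_ge m 2 with h | h
      · interval_cases m <;> norm_num
      · have e : (4 : ℕ) * 2 ^ (m + 1) = 2 * (4 * 2 ^ m) := by ring
        nlinarith
  have h6 : 2 ^ Z ≤ 4 * ((L + 1) * b) ^ 2 := by
    have h7 : 2 ^ Z * 2 ^ Z ≤ (4 * ((L + 1) * b) ^ 2) * 2 ^ Z := by
      calc 2 ^ Z * 2 ^ Z ≤ ((L + 1) * b * (Z + 1)) * ((L + 1) * b * (Z + 1)) :=
            Nat.mul_le_mul h4 h4
        _ = ((L + 1) * b) ^ 2 * (Z + 1) ^ 2 := by ring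
        _ ≤ ((L + 1) * b) ^ 2 * (4 * 2 ^ Z) := Nat.mul_le_mul_left _ (h5 Z)
        _ = _ := by ring
    exact Nat.le_of_mul_le_mul_right h7 (Nat.pow_pos (by norm_num))
  have h7 : Z ≤ 2 * Nat.log 2 L + 2 * Nat.log 2 b + 7 := by
    have h8 : 2 ^ Z < 2 ^ (2 * Nat.log 2 L + 2 * Nat.log 2 b + 8) := by
      have h9 : L < 2 ^ (Nat.log 2 L + 1) := Nat.lt_pow_succ_log_self (by norm_num) L
      have h10 : b < 2 ^ (Nat.log 2 b + 1) := Nat.lt_pow_succ_log_self (by norm_num) b
      have h11 : L * b < 2 ^ (Nat.log 2 L + 1) * 2 ^ (Nat.log 2 b + 1) := Nat.mul_lt_mul'' h9 h10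
      calc 2 ^ Z ≤ 4 * ((L + 1) * b) ^ 2 := h6
        _ ≤ 4 * (2 * (L * b)) ^ 2 := by
            refine Nat.mul_le_mul_left _ (Nat.pow_le_pow_left ?_ 2)
            calc (L + 1) * b ≤ (2 * L) * b := Nat.mul_le_mul_right _ (by omega)
              _ = _ := by ring
        _ = 16 * (L * b) ^ 2 := by ring
        _ < 16 * (2 ^ (Nat.log 2 L + 1) * 2 ^ (Nat.log 2 b + 1)) ^ 2 :=
            Nat.mul_lt_mul_of_pos_left (Nat.pow_lt_pow_left h11 (by norm_num)) (by norm_num)
        _ = _ := by ring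
    have := (Nat.pow_lt_pow_iff_right (by norm_num : 1 < 2)).1 h8
    omega
  rw [← hL, mul_comm]
  exact Nat.mul_le_mul_left _ (by omega)

/-- The order of a group if the primes that divide the order of a stabilizer are bounded. -/
theorem order_le {t : ℕ} [FaithfulSMul Γ V]
    (hab : ∀ M : Subgroup Γ, (∀ a ∈ M, ∀ b ∈ M, a * b = b * a) → ∃ S : Finset V, S.card ≤ b ∧
      ∀ g ∈ M, (∀ v ∈ S, g • v = v) → g = 1) (hb : 1 ≤ b) (hn : 2 ≤ Fintype.card V)
    (S : Finset V) (H : Subgroup Γ) (hH : ∀ g : Γ, (∀ v ∈ S, g • v = v) → g ∈ H)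
    (hp : ∀ p, p.Prime → p ∣ Nat.card H → p ≤ t) :
    Nat.card Γ ≤ Fintype.card V ^ (S.card + t * (b * (2 * Nat.log 2 (Nat.log 2 (Fintype.card V)) +
      2 * Nat.log 2 b + 8))) := by
  obtain ⟨E, hE⟩ : ∃ E, E = b * (2 * Nat.log 2 (Nat.log 2 (Fintype.card V)) +
      2 * Nat.log 2 b + 8) := ⟨_, rfl⟩
  rw [← hE]
  have h2 : Nat.card H ≤ (Fintype.card V ^ E) ^ t := by
    refine card_of_sylow (Nat.pow_pos (by omega)) hp ?_
    intro p hp Q hQ
    have : Fact p.Prime := ⟨hp⟩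
    obtain ⟨Q', hQ'⟩ : ∃ Q', Q' = Q.map H.subtype := ⟨_, rfl⟩
    have h3 : IsPGroup p Q' := by
      rw [hQ']
      exact hQ.map H.subtype
    have h4 : Group.IsNilpotent Q' := h3.isNilpotent
    obtain ⟨S', h5, h6⟩ := base_nil hab Q' hb hn
    rw [← hE] at h5
    have h7 : Nat.card Q' = Nat.card Q := by
      rw [hQ']
      exact Subgroup.card_map_of_injective H.subtype_injective
    have h8 := card_le_pow (Γ := Q') S' ⊥ (fun g hg => by
      rw [Subgroup.mem_bot]
      exact Subtype.ext (h6 g g.2 hg))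
    rw [Subgroup.card_bot, mul_one, h7] at h8
    exact h8.trans (Nat.pow_le_pow_right (by omega) h5)
  calc Nat.card Γ ≤ Fintype.card V ^ S.card * Nat.card H := card_le_pow S H hH
    _ ≤ Fintype.card V ^ S.card * (Fintype.card V ^ E) ^ t := Nat.mul_le_mul_left _ h2
    _ = _ := by rw [← pow_mul, ← pow_add, mul_comm E t]

end

end Run7.h33.AB
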