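import Mathlib

/-!
# The order of a finite p-group in terms of its abelian subgroups
-/

set_option autoImplicit false
set_option linter.unusedSectionVars false

namespace Run7.h33.AB

open MulAction

variable {P : Type} [Group P] [Finite P]

/-- A finite group with `m` elements is generated by `log₂ m` elements. -/
theorem exists_gens (M : Subgroup P) : ∃ S : Finset P, (∀ x ∈ S, x ∈ M) ∧
    Subgroup.closure (S : Set P) = M ∧ 2 ^ S.card ≤ Nat.card M := by
  classical
  have key : ∀ k : ℕ, ∃ S : Finset P, (∀ x ∈ S, x ∈ M) ∧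
      2 ^ S.card ≤ Nat.card (Subgroup.closure (S : Set P)) ∧
      (Subgroup.closure (S : Set P) = M ∨ k ≤ S.card) := by
    intro k
    induction k with
    | zero =>
      refine ⟨∅, by simp, ?_, Or.inr (by simp)⟩
      rw [Finset.card_empty, pow_zero]
      exact Nat.card_pos
    | succ k ih =>
      obtain ⟨S, h1, h2, h3⟩ := ih
      by_cases h4 : Subgroup.closure (S : Set P) = M
      · exact ⟨S, h1, h2, Or.inl h4⟩
      · have h5 : Subgroup.closure (S : Set P) ≤ M := by
          rw [Subgroup.closure_le]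
          exact fun x hx => h1 x hx
        obtain ⟨x, hx, hxS⟩ : ∃ x ∈ M, x ∉ Subgroup.closure (S : Set P) := by
          by_contra hcon
          push Not at hcon
          exact h4 (le_antisymm h5 fun x hx => hcon x hx)
        have hxS' : x ∉ S := fun h => hxS (Subgroup.subset_closure h)
        have hle : Subgroup.closure (S : Set P) ≤
            Subgroup.closure ((insert x S : Finset P) : Set P) :=
          Subgroup.closure_mono (Finset.coe_subset.2 (Finset.subset_insert x S))
        refine ⟨insert x S, ?_, ?_, ?_⟩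
        · intro y hy
          rcases Finset.mem_insert.1 hy with rfl | hy
          · exact hx
          · exact h1 y hy
        · rw [Finset.card_insert_of_notMem hxS', pow_succ]
          obtain ⟨c, hc⟩ := Subgroup.card_dvd_of_le hle
          have hpos : 0 < Nat.card (Subgroup.closure ((insert x S : Finset P) : Set P)) :=
            Nat.card_pos
          have hc2 : 2 ≤ c := by
            by_contra hcon
            have hc1 : c = 0 ∨ c = 1 := by omega
            rcases hc1 with rfl | rfl
            · omega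
            · have h6 : Subgroup.closure (S : Set P) =
                  Subgroup.closure ((insert x S : Finset P) : Set P) :=
                Subgroup.eq_of_le_of_card_ge hle (by rw [hc, mul_one])
              refine hxS ?_
              rw [h6]
              exact Subgroup.subset_closure (Finset.mem_coe.2 (Finset.mem_insert_self x S))
          rw [hc]
          exact Nat.mul_le_mul h2 hc2
        · rw [Finset.card_insert_of_notMem hxS']
          right
          rcases h3 with h3 | h3
          · exact absurd h3 h4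
          · omega
  obtain ⟨S, h1, h2, h3⟩ := key (Nat.card M)
  have h5 : Subgroup.closure (S : Set P) ≤ M := by
    rw [Subgroup.closure_le]
    exact fun x hx => h1 x hx
  have h6 : Nat.card (Subgroup.closure (S : Set P)) ≤ Nat.card M :=
    Nat.le_of_dvd Nat.card_pos (Subgroup.card_dvd_of_le h5)
  refine ⟨S, h1, ?_, h2.trans h6⟩
  rcases h3 with h3 | h3
  · exact h3
  · exfalso
    have h7 : Nat.card M < 2 ^ Nat.card M := Nat.lt_two_pow_self
    have h8 : 2 ^ Nat.card M ≤ 2 ^ S.card := Nat.pow_le_pow_right (by norm_num) h3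
    omega

/-- A self-centralizing normal subgroup. -/
theorem card_le_of_centralizer (M : Subgroup P) [M.Normal]
    (hM : ∀ g : P, (∀ m ∈ M, g * m = m * g) → g ∈ M) :
    Nat.card P ≤ Nat.card M ^ (Nat.log 2 (Nat.card M) + 1) := by
  classical
  obtain ⟨S, h1, h2, h3⟩ := exists_gens M
  have := Fintype.ofFinite P
  have := Fintype.ofFinite M
  obtain ⟨f, hf⟩ : ∃ f : P → (S → M), f = fun g s =>
      ⟨g * s.1 * g⁻¹, Subgroup.Normal.conj_mem inferInstance _ (h1 s.1 s.2) g⟩ := ⟨_, rfl⟩
  have h4 : ∀ g g', f g = f g' → g⁻¹ * g' ∈ M := by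
    intro g g' hgg
    refine hM _ ?_
    have h5 : M ≤ Subgroup.centralizer {g⁻¹ * g'} := by
      rw [← h2, Subgroup.closure_le]
      intro s hs
      have h6 := congrArg Subtype.val (congrFun hgg ⟨s, hs⟩)
      rw [hf] at h6
      simp only at h6
      rw [SetLike.mem_coe, Subgroup.mem_centralizer_iff]
      rintro _ rfl
      have h7 : g' * s = g * s * g⁻¹ * g' := by
        rw [h6]
        group
      calc g⁻¹ * g' * s = g⁻¹ * (g' * s) := by group
        _ = g⁻¹ * (g * s * g⁻¹ * g') := by rw [h7]
        _ = s * (g⁻¹ * g') := by group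
    intro m hm
    exact (Subgroup.mem_centralizer_iff.1 (h5 hm)) _ rfl
  have h5 : (Finset.univ : Finset P).card ≤
      Nat.card M * ((Finset.univ : Finset P).image f).card := by
    refine Finset.card_le_mul_card_image _ _ ?_
    intro v hv
    obtain ⟨g₀, -, rfl⟩ := Finset.mem_image.1 hv
    rw [Nat.card_eq_fintype_card, ← Finset.card_univ]
    refine Finset.card_le_card_of_surjOn (fun m : M => g₀ * m.1) ?_
    intro g hg
    rw [Finset.mem_coe, Finset.mem_filter] at hg
    have h6 := h4 g₀ g hg.2.symm
    refine ⟨⟨_, h6⟩, Finset.mem_coe.2 (Finset.mem_univ _), ?_⟩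
    simp only
    group
  have h6 : ((Finset.univ : Finset P).image f).card ≤ Nat.card M ^ S.card := by
    refine (Finset.card_le_univ _).trans ?_
    rw [Fintype.card_fun, Nat.card_eq_fintype_card, Fintype.card_coe]
  have h7 : S.card ≤ Nat.log 2 (Nat.card M) := Nat.le_log_of_pow_le (by norm_num) h3
  calc Nat.card P = (Finset.univ : Finset P).card := by
        rw [Nat.card_eq_fintype_card, Finset.card_univ]
    _ ≤ _ := h5
    _ ≤ Nat.card M * Nat.card M ^ Nat.log 2 (Nat.card M) :=
        Nat.mul_le_mul_left _ (h6.trans (Nat.pow_le_pow_right Nat.card_pos h7))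
    _ = _ := by
        rw [pow_succ, mul_comm]

/-- A finite p-group has an abelian normal subgroup that contains its centralizer. -/
theorem exists_self_centralizing {p : ℕ} [Fact p.Prime] (hP : IsPGroup p P) :
    ∃ M : Subgroup P, M.Normal ∧ (∀ a ∈ M, ∀ b ∈ M, a * b = b * a) ∧
      ∀ g : P, (∀ m ∈ M, g * m = m * g) → g ∈ M := by
  classical
  obtain ⟨M, ⟨hMn, hMc⟩, hmax⟩ := Set.exists_max_image
    {M : Subgroup P | M.Normal ∧ ∀ a ∈ M, ∀ b ∈ M, a * b = b * a} (fun M => Nat.card M)
    (Set.toFinite _) ⟨⊥, inferInstance, by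
      intro a ha b hb
      rw [Subgroup.mem_bot] at ha hb
      rw [ha, hb]⟩
  refine ⟨M, hMn, hMc, ?_⟩
  by_contra hcon
  push Not at hcon
  obtain ⟨g, hg, hgM⟩ := hcon
  have hCn : (Subgroup.centralizer (M : Set P)).Normal := inferInstance
  obtain ⟨N, hN⟩ : ∃ N, N = (Subgroup.centralizer (M : Set P)).map (QuotientGroup.mk' M) :=
    ⟨_, rfl⟩
  have hNn : N.Normal := by
    rw [hN]
    exact Subgroup.Normal.map hCn _ (QuotientGroup.mk'_surjective M)
  have hQ : IsPGroup p (P ⧸ M) := hP.to_quotient M
  let _ : MulAction (P ⧸ M) N := MulAction.compHom N (MulAut.conjNormal (H := N))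
  have hsm : ∀ (q : P ⧸ M) (b : N), ((q • b : N) : P ⧸ M) = q * b * q⁻¹ := fun q b => rfl
  have hpN : p ∣ Nat.card N := by
    rcases (hQ.to_subgroup N).card_eq_or_dvd with h | h
    · exfalso
      have h1 : (QuotientGroup.mk' M g) ∈ N := by
        rw [hN]
        refine Subgroup.mem_map_of_mem _ ?_
        rw [Subgroup.mem_centralizer_iff]
        intro m hm
        exact (hg m hm).symm
      have h2 := Nat.card_eq_one_iff_unique.1 h
      obtain ⟨h3, -⟩ := h2
      have h4 : (⟨_, h1⟩ : N) = 1 := Subsingleton.elim _ _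
      have h5 := congrArg Subtype.val h4
      simp only [QuotientGroup.mk'_apply, Subgroup.coe_one, QuotientGroup.eq_one_iff] at h5
      exact hgM h5
    · exact h
  have h1 : (1 : N) ∈ fixedPoints (P ⧸ M) N := by
    intro q
    refine Subtype.ext ?_
    rw [hsm]
    simp
  obtain ⟨b, hb, hb1⟩ := hQ.exists_fixed_point_of_prime_dvd_card_of_fixed_point N hpN h1
  have hbc : ∀ q : P ⧸ M, q * b = b * q := by
    intro q
    have h2 := congrArg Subtype.val (hb q)
    rw [hsm] at h2
    rw [mul_inv_eq_iff_eq_mul] at h2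
    exact h2
  obtain ⟨c, hc, hcb⟩ : ∃ c ∈ Subgroup.centralizer (M : Set P), QuotientGroup.mk' M c = b := by
    have h2 : N ≤ (Subgroup.centralizer (M : Set P)).map (QuotientGroup.mk' M) := hN.le
    exact Subgroup.mem_map.1 (h2 b.2)
  have hcM : c ∉ M := by
    intro h
    refine hb1 (Subtype.ext ?_)
    rw [← hcb]
    exact ((QuotientGroup.eq_one_iff c).2 h).symm
  have hcm : ∀ m ∈ M, m * c = c * m := fun m hm => Subgroup.mem_centralizer_iff.1 hc m hm
  obtain ⟨M', hM'⟩ : ∃ M', M' = (Subgroup.zpowers (b : P ⧸ M)).comap (QuotientGroup.mk' M) :=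
    ⟨_, rfl⟩
  have hM'm : ∀ a ∈ M', ∃ i : ℤ, ∃ m ∈ M, a = c ^ i * m := by
    intro a ha
    rw [hM', Subgroup.mem_comap, Subgroup.mem_zpowers_iff] at ha
    obtain ⟨i, hi⟩ := ha
    refine ⟨i, (c ^ i)⁻¹ * a, ?_, by group⟩
    rw [← QuotientGroup.eq_one_iff]
    have h2 : (QuotientGroup.mk' M) ((c ^ i)⁻¹ * a) = 1 := by
      rw [map_mul, map_inv, map_zpow, hcb, hi]
      simp
    exact h2
  have hzc : ∀ (i : ℤ), ∀ m ∈ M, m * c ^ i = c ^ i * m := by
    intro i m hm
    exact ((Commute.zpow_right (hcm m hm : Commute m c) i) : Commute m (c ^ i))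
  have hin : M' ∈ {M : Subgroup P | M.Normal ∧ ∀ a ∈ M, ∀ b ∈ M, a * b = b * a} := by
    refine ⟨?_, ?_⟩
    · rw [hM']
      have hz : (Subgroup.zpowers (b : P ⧸ M)).Normal := by
        refine ⟨fun n hn q => ?_⟩
        rw [Subgroup.mem_zpowers_iff] at hn ⊢
        obtain ⟨i, rfl⟩ := hn
        refine ⟨i, ?_⟩
        have h2 : Commute q ((b : P ⧸ M) ^ i) := Commute.zpow_right (hbc q) i
        rw [h2.eq, mul_inv_cancel_right]
      exact hz.comap _
    · intro a ha a' ha'
      obtain ⟨i, m, hm, rfl⟩ := hM'm a ha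
      obtain ⟨j, m', hm', rfl⟩ := hM'm a' ha'
      calc c ^ i * m * (c ^ j * m') = c ^ i * (m * c ^ j) * m' := by group
        _ = c ^ i * (c ^ j * m) * m' := by rw [hzc j m hm]
        _ = c ^ i * c ^ j * (m * m') := by group
        _ = c ^ j * c ^ i * (m' * m) := by rw [hMc m hm m' hm', ← zpow_add, ← zpow_add, add_comm]
        _ = c ^ j * (c ^ i * m') * m := by group
        _ = c ^ j * (m' * c ^ i) * m := by rw [hzc i m' hm']
        _ = _ := by group
  have hle : M ≤ M' := by
    intro m hm
    rw [hM', Subgroup.mem_comap]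
    have h2 : QuotientGroup.mk' M m = 1 := (QuotientGroup.eq_one_iff m).2 hm
    rw [h2]
    exact Subgroup.one_mem _
  have h2 := Subgroup.eq_of_le_of_card_ge hle (hmax M' hin)
  refine hcM ?_
  rw [h2, hM', Subgroup.mem_comap, hcb]
  exact Subgroup.mem_zpowers _

/-- If all abelian subgroups of a finite p-group have at most `c` elements then the group has at most
`c ^ (log c + 1)` elements. -/
theorem card_pgroup {p : ℕ} [Fact p.Prime] (hP : IsPGroup p P) {c : ℕ}
    (hc : ∀ M : Subgroup P, (∀ a ∈ M, ∀ b ∈ M, a * b = b * a) → Nat.card M ≤ c) :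
    Nat.card P ≤ c ^ (Nat.log 2 c + 1) := by
  obtain ⟨M, hn, h1, h2⟩ := exists_self_centralizing hP
  have h3 := card_le_of_centralizer M h2
  have h4 := hc M h1
  have h5 : 0 < Nat.card M := Nat.card_pos
  calc Nat.card P ≤ _ := h3
    _ ≤ c ^ (Nat.log 2 (Nat.card M) + 1) := Nat.pow_le_pow_left h4 _
    _ ≤ _ := Nat.pow_le_pow_right (by omega) (Nat.add_le_add_right (Nat.log_mono_right h4) 1)

/-- If all primes that divide the order of a finite group are at most `t` and all its p-subgroups
have at most `c` elements, then the group has at most `c ^ t` elements. -/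
theorem card_of_sylow {t c : ℕ} (hc1 : 1 ≤ c) (ht : ∀ p, p.Prime → p ∣ Nat.card P → p ≤ t)
    (hc : ∀ p, p.Prime → ∀ Q : Subgroup P, IsPGroup p Q → Nat.card Q ≤ c) :
    Nat.card P ≤ c ^ t := by
  have h0 : Nat.card P ≠ 0 := Nat.card_pos.ne'
  calc Nat.card P = ∏ p ∈ (Nat.card P).primeFactors, p ^ (Nat.card P).factorization p :=
        (Nat.prod_factorization_pow_eq_self h0).symm
    _ ≤ ∏ _p ∈ (Nat.card P).primeFactors, c := by
        refine Finset.prod_le_prod' fun p hp => ?_
        have hpp := Nat.prime_of_mem_primeFactors hp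
        have : Fact p.Prime := ⟨hpp⟩
        obtain ⟨Q⟩ : Nonempty (Sylow p P) := inferInstance
        rw [← Q.card_eq_multiplicity]
        exact hc p hpp Q Q.isPGroup'
    _ = c ^ (Nat.card P).primeFactors.card := by rw [Finset.prod_const]
    _ ≤ c ^ t := by
        refine Nat.pow_le_pow_right hc1 ?_
        have h1 : (Nat.card P).primeFactors ⊆ Finset.Icc 1 t := by
          intro p hp
          rw [Finset.mem_Icc]
          have hpp := Nat.prime_of_mem_primeFactors hp
          exact ⟨hpp.one_le, ht p hpp (Nat.dvd_of_mem_primeFactors hp)⟩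
        have h2 := Finset.card_le_card h1
        rw [Nat.card_Icc] at h2
        omega

end Run7.h33.AB
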