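import Pool.Agent.Run7.h33.AB.Base
import Pool.Agent.Run7.h33.AB.PGrp
import Pool.Agent.Run7.h33.LL.AutFix

/-!
# The order of the automorphism group
-/

set_option autoImplicit false
set_option linter.unusedSectionVars false

namespace Run7.h33.AB

open SimpleGraph Finset MulAction Run7.h33.NM Run7.h33.LL

section

variable {Γ V : Type} [Group Γ] [Finite Γ] [MulAction Γ V] [Fintype V]

/-- The number of elements of a group in terms of a set of points. -/
theorem card_le_pow (S : Finset V) (H : Subgroup Γ)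
    (hH : ∀ g : Γ, (∀ v ∈ S, g • v = v) → g ∈ H) :
    Nat.card Γ ≤ Fintype.card V ^ S.card * Nat.card H := by
  classical
  have := Fintype.ofFinite Γ
  have := Fintype.ofFinite H
  obtain ⟨f, hf⟩ : ∃ f : Γ → (S → V), f = fun g s => g • s.1 := ⟨_, rfl⟩
  have h4 : ∀ g g', f g = f g' → g⁻¹ * g' ∈ H := by
    intro g g' hgg
    refine hH _ fun v hv => ?_
    have h5 := congrFun hgg ⟨v, hv⟩
    rw [hf] at h5
    simp only at h5
    rw [mul_smul, ← h5, inv_smul_smul]
  have h5 : (Finset.univ : Finset Γ).card ≤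
      Nat.card H * ((Finset.univ : Finset Γ).image f).card := by
    refine Finset.card_le_mul_card_image _ _ ?_
    intro v hv
    obtain ⟨g₀, -, rfl⟩ := Finset.mem_image.1 hv
    rw [Nat.card_eq_fintype_card, ← Finset.card_univ]
    refine Finset.card_le_card_of_surjOn (fun m : H => g₀ * m.1) ?_
    intro g hg
    rw [Finset.mem_coe, Finset.mem_filter] at hg
    have h6 := h4 g₀ g hg.2.symm
    refine ⟨⟨_, h6⟩, Finset.mem_coe.2 (Finset.mem_univ _), ?_⟩
    simp only
    group
  have h6 : ((Finset.univ : Finset Γ).image f).card ≤ Fintype.card V ^ S.card := by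
    refine (Finset.card_le_univ _).trans ?_
    rw [Fintype.card_fun, Fintype.card_coe]
  calc Nat.card Γ = (Finset.univ : Finset Γ).card := by
        rw [Nat.card_eq_fintype_card, Finset.card_univ]
    _ ≤ _ := h5
    _ ≤ Nat.card H * Fintype.card V ^ S.card := Nat.mul_le_mul_left _ h6
    _ = _ := mul_comm _ _

end

section

variable {Γ V : Type} [Group Γ] [Finite Γ] [MulAction Γ V] [FaithfulSMul Γ V] [Fintype V]
  [DecidableEq V] {G : SimpleGraph V} {t A δ : ℕ}

theorem card_abelian (ha : ∀ (g : Γ) (x y : V), G.Adj x y → G.Adj (g • x) (g • y))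
    (hcomm : ∀ a b : Γ, a * b = b * a) (hG : Cn G t) (ht : 1 ≤ t) (hA : 1 ≤ A)
    (hdeg : ∀ v, δ ≤ (nb G v).card) (hn : Fintype.card V ≤ A * δ ^ 2)
    (hn1 : 1 ≤ Fintype.card V) :
    Nat.card Γ ≤ Fintype.card V ^ (2 ^ 84 * A ^ 19 * t ^ 18) := by
  let _ : CommGroup Γ := { ‹Group Γ› with mul_comm := hcomm }
  obtain ⟨S, -, h1, h2⟩ := base_all (P := Γ) ha hG ht hA hdeg hn
  have h3 : ∀ g : Γ, (∀ v ∈ S, g • v = v) → g ∈ (⊥ : Subgroup Γ) := by
    intro g hg
    rw [Subgroup.mem_bot]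
    refine FaithfulSMul.eq_of_smul_eq_smul (α := V) fun v => ?_
    rw [one_smul]
    exact h2 g hg v
  have h4 := card_le_pow S _ h3
  rw [Subgroup.card_bot, mul_one] at h4
  exact h4.trans (Nat.pow_le_pow_right hn1 h1)

theorem log_pow_le {n c : ℕ} (hc : 1 ≤ c) :
    Nat.log 2 (n ^ c) + 1 ≤ c * (Nat.log 2 n + 1) := by
  have h1 : n < 2 ^ (Nat.log 2 n + 1) := Nat.lt_pow_succ_log_self (by norm_num) n
  have h2 : n ^ c < 2 ^ (c * (Nat.log 2 n + 1)) := by
    calc n ^ c < (2 ^ (Nat.log 2 n + 1)) ^ c := Nat.pow_lt_pow_left h1 (by omega)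
      _ = _ := by rw [← pow_mul, mul_comm]
  exact Nat.log_lt_of_lt_pow' (by
    have := Nat.mul_pos hc (Nat.succ_pos (Nat.log 2 n))
    exact this.ne') h2

theorem card_p {p : ℕ} [Fact p.Prime] (hp : IsPGroup p Γ)
    (ha : ∀ (g : Γ) (x y : V), G.Adj x y → G.Adj (g • x) (g • y))
    (hG : Cn G t) (ht : 1 ≤ t) (hA : 1 ≤ A)
    (hdeg : ∀ v, δ ≤ (nb G v).card) (hn : Fintype.card V ≤ A * δ ^ 2)
    (hn1 : 1 ≤ Fintype.card V) {c : ℕ} (hc : c = 2 ^ 84 * A ^ 19 * t ^ 18) :
    Nat.card Γ ≤ Fintype.card V ^ (c ^ 2 * (Nat.log 2 (Fintype.card V) + 1)) := by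
  have hc1 : 1 ≤ c := by
    rw [hc]
    exact Nat.mul_pos (Nat.mul_pos (by norm_num) (Nat.pow_pos (by omega)))
      (Nat.pow_pos (by omega))
  have h1 : Nat.card Γ ≤ (Fintype.card V ^ c) ^ (Nat.log 2 (Fintype.card V ^ c) + 1) := by
    refine card_pgroup hp fun M hM => ?_
    rw [hc]
    exact card_abelian (Γ := M) (fun g x y h => ha g x y h)
      (fun a b => Subtype.ext (hM a a.2 b b.2)) hG ht hA hdeg hn hn1
  refine h1.trans ?_
  rw [← pow_mul]
  refine Nat.pow_le_pow_right hn1 ?_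
  calc c * (Nat.log 2 (Fintype.card V ^ c) + 1) ≤ c * (c * (Nat.log 2 (Fintype.card V) + 1)) :=
        Nat.mul_le_mul_left _ (log_pow_le hc1)
    _ = _ := by ring

end

section

variable {V : Type} [Fintype V] {G : SimpleGraph V} {t A δ : ℕ}

/-- The pointwise stabilizer in the group of automorphisms. -/
def stab (G : SimpleGraph V) (S : Finset V) : Subgroup (G ≃g G) where
  carrier := {φ | ∀ v ∈ S, φ v = v}
  one_mem' := fun _ _ => rfl
  mul_mem' := by
    intro a b ha hb v hv
    rw [RelIso.mul_apply, hb v hv, ha v hv]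
  inv_mem' := by
    intro a ha v hv
    have h := ha v hv
    calc a⁻¹ v = a⁻¹ (a v) := by rw [h]
      _ = v := RelIso.inv_apply_self a v

theorem finite_aut : Finite (G ≃g G) :=
  Finite.of_injective (fun φ : G ≃g G => (φ : V → V)) DFunLike.coe_injective

/-- The automorphism group. -/
theorem aut_main (hδ : 2 ≤ δ) (hA : 1 ≤ A) (ht : 1 ≤ t)
    (hG : ∀ u v, u ≠ v → (G.commonNeighbors u v).ncard ≤ t)
    (hd : ∀ v, δ ≤ (G.neighborSet v).ncard) (hn : Fintype.card V ≤ A * δ ^ 2) :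
    Nat.card (G ≃g G) ≤
      Fintype.card V ^ (2 ^ 170 * A ^ 38 * t ^ 37 * Nat.log 2 (Fintype.card V)) := by
  classical
  have := finite_aut (G := G)
  rcases isEmpty_or_nonempty V with hV | hV
  · have h1 : Nat.card (G ≃g G) ≤ 1 := by
      have : Subsingleton (G ≃g G) :=
        ⟨fun a b => RelIso.ext fun v => (IsEmpty.false v).elim⟩
      exact Finite.card_le_one_iff_subsingleton.2 this
    refine h1.trans ?_
    rw [Fintype.card_eq_zero]
    simp
  have hd' : ∀ v, δ ≤ (nb G v).card := fun v => by rw [card_nb]; exact hd v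
  obtain ⟨n, hne⟩ : ∃ n, n = Fintype.card V := ⟨_, rfl⟩
  have hn3 : 3 ≤ n := by
    obtain ⟨v⟩ := hV
    have h1 : insert v (nb G v) ⊆ (univ : Finset V) := subset_univ _
    have h2 := card_le_card h1
    rw [card_insert_of_notMem (fun h => (mem_nb.1 h).ne rfl), card_univ, ← hne] at h2
    have := hd' v
    omega
  have hn1 : 1 ≤ Fintype.card V := by rw [← hne]; omega
  obtain ⟨c, hc⟩ : ∃ c, c = 2 ^ 84 * A ^ 19 * t ^ 18 := ⟨_, rfl⟩
  have hAt : 1 ≤ A ^ 19 * t ^ 18 := Nat.mul_pos (Nat.pow_pos (by omega)) (Nat.pow_pos (by omega))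
  have hc1 : 1 ≤ c := by
    rw [hc, mul_assoc]
    omega
  obtain ⟨S, hS, -, hfix⟩ := main_cr hδ hA ht hG hd hn
  obtain ⟨L, hL⟩ : ∃ L, L = Nat.log 2 n := ⟨_, rfl⟩
  have hL1 : 1 ≤ L := by
    rw [hL]
    exact Nat.le_log_of_pow_le (by norm_num) (by omega)
  have hScard : S.card ≤ c * (L + 1) := by
    rw [← hne] at hS
    have h1 : Nat.log 2 (t * A) + 1 ≤ t * A := by
      have := Nat.log_lt_self 2 (Nat.mul_pos ht hA).ne'
      omega
    have h2 : Nat.log 2 (Nat.log 2 n) ≤ L := by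
      rw [hL]
      exact Nat.log_le_self 2 _
    have h3 : t ^ 2 * A ^ 3 ≤ t ^ 18 * A ^ 19 :=
      Nat.mul_le_mul (Nat.pow_le_pow_right ht (by norm_num)) (Nat.pow_le_pow_right hA (by norm_num))
    have h4 : 1 ≤ t * A ^ 2 := Nat.mul_pos ht (Nat.pow_pos (by omega))
    calc S.card ≤ _ := hS
      _ ≤ 40000 * t * A * (A * (t * A) + L) := by gcongr
      _ = 40000 * t * A * (t * A ^ 2 + 1 * L) := by ring
      _ ≤ 40000 * t * A * (t * A ^ 2 + (t * A ^ 2) * L) := by gcongr
      _ = 40000 * (t ^ 2 * A ^ 3) * (L + 1) := by ring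
      _ ≤ 40000 * (t ^ 18 * A ^ 19) * (L + 1) := by gcongr
      _ ≤ 2 ^ 84 * (t ^ 18 * A ^ 19) * (L + 1) := by
          gcongr
          norm_num
      _ = c * (L + 1) := by
          rw [hc]
          ring
  have h1 : Nat.card (G ≃g G) ≤ Fintype.card V ^ S.card * Nat.card (stab G S) :=
    card_le_pow S (stab G S) fun g hg => hg
  have h2 : Nat.card (stab G S) ≤
      (Fintype.card V ^ (c ^ 2 * (L + 1))) ^ t := by
    refine card_of_sylow (Nat.pow_pos hn1) ?_ ?_
    · intro p hp hdvd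
      by_contra hcon
      push Not at hcon
      have : Fact p.Prime := ⟨hp⟩
      obtain ⟨φ, hφ⟩ := exists_prime_orderOf_dvd_card' p hdvd
      have h3 : φ ^ p = 1 := by rw [← hφ]; exact pow_orderOf_eq_one φ
      have h4 : (⇑φ.1)^[p] = id := by
        have h5 : φ.1 ^ p = 1 := by
          have := congrArg Subtype.val h3
          simpa using this
        funext v
        have h6 : ∀ k : ℕ, ∀ w : V, (⇑φ.1)^[k] w = (φ.1 ^ k) w := by
          intro k
          induction k with
          | zero => intro w; rfl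
          | succ k ih =>
            intro w
            rw [Function.iterate_succ_apply, ih, pow_succ, RelIso.mul_apply]
        rw [h6, h5]
        rfl
      have h5 : φ = 1 := by
        refine Subtype.ext (RelIso.ext fun v => ?_)
        exact hfix p hp hcon φ.1 h4 φ.2 v
      rw [h5, orderOf_one] at hφ
      exact hp.one_lt.ne hφ
    · intro p hp Q hQ
      have : Fact p.Prime := ⟨hp⟩
      have h3 := card_p (Γ := Q) (V := V) (G := G) hQ (fun g x y h => g.1.1.map_adj_iff.2 h)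
        (cn_of hG) ht hA hd' hn hn1 hc
      rw [← hne, ← hL] at h3
      rw [← hne]
      exact h3
  calc Nat.card (G ≃g G) ≤ _ := h1
    _ ≤ Fintype.card V ^ (c * (L + 1)) * (Fintype.card V ^ (c ^ 2 * (L + 1))) ^ t :=
        Nat.mul_le_mul (Nat.pow_le_pow_right hn1 hScard) h2
    _ = Fintype.card V ^ (c * (L + 1) + c ^ 2 * (L + 1) * t) := by
        rw [← pow_mul, ← pow_add]
    _ ≤ _ := by
        refine Nat.pow_le_pow_right hn1 ?_
        rw [← hne, ← hL]
        have h5 : c ≤ c ^ 2 * t := by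
          calc c ≤ c ^ 2 := Nat.le_self_pow (by norm_num) c
            _ ≤ c ^ 2 * t := Nat.le_mul_of_pos_right _ ht
        calc c * (L + 1) + c ^ 2 * (L + 1) * t ≤ c ^ 2 * t * (L + L) + c ^ 2 * (L + L) * t := by
              gcongr
          _ = 4 * (c ^ 2 * t * L) := by ring
          _ = 2 ^ 170 * A ^ 38 * t ^ 37 * L := by
              rw [hc]
              ring

end

end Run7.h33.AB
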