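import Pool.Agent.Run7.h33.AB.St2

/-!
# Abelian groups of automorphisms have bounded bases
-/

set_option autoImplicit false
set_option linter.unusedSectionVars false

namespace Run7.h33.AB

open SimpleGraph Finset MulAction Run7.h33.NM Run7.h33.LL

variable {P V : Type} [CommGroup P] [Finite P] [MulAction P V] [Fintype V] [DecidableEq V]
  {G : SimpleGraph V} {t : ℕ}

theorem round {B d : ℕ} (ha : Pres P G) (hG : Cn G t) (ht : 1 ≤ t) (hB : 1 ≤ B)
    (hd : 2 ^ 23 * B ^ 9 * t ^ 9 ≤ d)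
    (hdeg : ∀ v, d + 1 + t ≤ (nb G v).card) (hn : Fintype.card V ≤ B * d ^ 2)
    (hne : ∃ v : V, v ∉ fx P V) :
    ∃ x w : V, (orb (st P x) w).card ≤ 1024 * B ^ 4 * t ^ 3 ∧
      ∃ κ : Finset V, d ^ 2 ≤ 32 * t ^ 3 * B ^ 2 * κ.card ∧ Disjoint κ (fx P V) ∧
      ∀ g : P, g • x = x → g • w = w → ∀ z ∈ κ, g • z = z := by
  have hB4 : 1 ≤ B ^ 4 := Nat.pow_pos (by omega)
  have ht3 : 1 ≤ t ^ 3 := Nat.pow_pos (by omega)
  have hBt : 1 ≤ B ^ 9 * t ^ 9 := Nat.mul_pos (Nat.pow_pos (by omega)) (Nat.pow_pos (by omega))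
  have hd4 : 4 ≤ d := by
    rw [mul_assoc] at hd
    omega
  obtain ⟨x, Z, h1, h2, h3⟩ := stage1 ha hG ht hB hd4 hdeg hn hne
  have hT : 1 ≤ 1024 * B ^ 4 * t ^ 3 := by
    have := Nat.mul_pos hB4 ht3
    rw [mul_assoc]
    omega
  obtain ⟨w, hw, κ, h4, h5, h6⟩ := stage2 ha hG ht hB hT (by
    calc 8 * t ^ 3 * B * (1024 * B ^ 4 * t ^ 3) ^ 2 = 2 ^ 23 * B ^ 9 * t ^ 9 := by ring
      _ ≤ d := hd) hdeg hn (st P x) Z h1 h2 h3
  exact ⟨x, w, h3 w hw, κ, h4, h5, fun g hgx hgw z hz => h6 g hgx hgw z hz⟩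

/-- The pointwise stabilizer. -/
def pw (P : Type) {V : Type} [CommGroup P] [MulAction P V] (S : Finset V) : Subgroup P where
  carrier := {g | ∀ v ∈ S, g • v = v}
  one_mem' := fun v _ => one_smul _ v
  mul_mem' := by
    intro a b ha hb v hv
    rw [mul_smul, hb v hv, ha v hv]
  inv_mem' := by
    intro a ha v hv
    exact inv_smul_eq_iff.2 (ha v hv).symm

theorem mem_pw {S : Finset V} {g : P} : g ∈ pw P S ↔ ∀ v ∈ S, g • v = v := Iff.rfl

theorem iter {B d : ℕ} (ha : Pres P G) (hG : Cn G t) (ht : 1 ≤ t) (hB : 1 ≤ B)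
    (hd : 2 ^ 23 * B ^ 9 * t ^ 9 ≤ d)
    (hdeg : ∀ v, d + 1 + t ≤ (nb G v).card) (hn : Fintype.card V ≤ B * d ^ 2) (r : ℕ) :
    ∃ S F : Finset V, S.card ≤ 2 * r ∧ (∀ g ∈ pw P S, ∀ v ∈ F, g • v = v) ∧
      ((∀ v, v ∈ F) ∨ r * d ^ 2 ≤ 32 * t ^ 3 * B ^ 2 * F.card) := by
  induction r with
  | zero =>
    exact ⟨∅, ∅, by simp, fun g _ v hv => absurd hv (notMem_empty v), Or.inr (by omega)⟩
  | succ r ih =>
    obtain ⟨S, F, hS, hF, hcase⟩ := ih
    rcases hcase with h | h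
    · exact ⟨S, F, by omega, hF, Or.inl h⟩
    by_cases hall : ∀ v : V, v ∈ fx (pw P S) V
    · refine ⟨S, univ, by omega, ?_, Or.inl fun v => mem_univ v⟩
      intro g hg v _
      exact smul_of_mem_fx (hall v) ⟨g, hg⟩
    · push Not at hall
      have ha' : Pres (pw P S) G := fun g x y hxy => ha g x y hxy
      obtain ⟨x, w, -, κ, h1, h2, h3⟩ := round ha' hG ht hB hd hdeg hn hall
      refine ⟨insert x (insert w S), F ∪ κ, ?_, ?_, Or.inr ?_⟩
      · have h4 := card_insert_le x (insert w S)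
        have h5 := card_insert_le w S
        omega
      · intro g hg v hv
        have hgS : g ∈ pw P S := by
          intro u hu
          exact hg u (mem_insert_of_mem (mem_insert_of_mem hu))
        rcases mem_union.1 hv with hv | hv
        · exact hF g hgS v hv
        · exact h3 ⟨g, hgS⟩ (hg x (mem_insert_self _ _))
            (hg w (mem_insert_of_mem (mem_insert_self _ _))) v hv
      · have hdis : Disjoint F κ := by
          rw [Finset.disjoint_left]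
          intro v hv hvκ
          refine (Finset.disjoint_left.1 h2) hvκ (mem_fx.2 ?_)
          rw [eq_top_iff]
          rintro ⟨g, hg⟩ _
          exact hF g hg v hv
        rw [card_union_of_disjoint hdis]
        calc (r + 1) * d ^ 2 = r * d ^ 2 + d ^ 2 := by ring
          _ ≤ 32 * t ^ 3 * B ^ 2 * F.card + 32 * t ^ 3 * B ^ 2 * κ.card :=
              Nat.add_le_add h h1
          _ = _ := by ring

/-- Abelian groups of automorphisms have bounded bases: large minimum degree. -/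
theorem base_large {B d : ℕ} (ha : Pres P G) (hG : Cn G t) (ht : 1 ≤ t) (hB : 1 ≤ B)
    (hd : 2 ^ 23 * B ^ 9 * t ^ 9 ≤ d)
    (hdeg : ∀ v, d + 1 + t ≤ (nb G v).card) (hn : Fintype.card V ≤ B * d ^ 2) :
    ∃ S : Finset V, S.card ≤ 64 * t ^ 3 * B ^ 3 + 2 ∧
      ∀ g : P, (∀ v ∈ S, g • v = v) → ∀ v : V, g • v = v := by
  obtain ⟨S, F, h1, h2, h3⟩ := iter ha hG ht hB hd hdeg hn (32 * t ^ 3 * B ^ 3 + 1)
  refine ⟨S, by
    refine h1.trans (le_of_eq ?_)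
    ring, fun g hg v => ?_⟩
  rcases h3 with h3 | h3
  · exact h2 g hg v (h3 v)
  · exfalso
    have hBt : 1 ≤ B ^ 9 * t ^ 9 := Nat.mul_pos (Nat.pow_pos (by omega)) (Nat.pow_pos (by omega))
    have hd1 : 0 < d ^ 2 := by
      have : 1 ≤ d := by
        rw [mul_assoc] at hd
        omega
      exact Nat.pow_pos this
    have h4 : (32 * t ^ 3 * B ^ 3 + 1) * d ^ 2 ≤ 32 * t ^ 3 * B ^ 3 * d ^ 2 := by
      calc (32 * t ^ 3 * B ^ 3 + 1) * d ^ 2 ≤ 32 * t ^ 3 * B ^ 2 * F.card := h3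
        _ ≤ 32 * t ^ 3 * B ^ 2 * (B * d ^ 2) :=
            Nat.mul_le_mul_left _ ((card_le_univ F).trans hn)
        _ = _ := by ring
    have h5 := Nat.le_of_mul_le_mul_right h4 hd1
    omega

/-- Abelian groups of automorphisms have bounded bases. -/
theorem base_all {A δ : ℕ} (ha : Pres P G) (hG : Cn G t) (ht : 1 ≤ t) (hA : 1 ≤ A)
    (hdeg : ∀ v, δ ≤ (nb G v).card) (hn : Fintype.card V ≤ A * δ ^ 2) :
    ∃ S : Finset V, (2 ^ 42 * A ^ 9 * t ^ 9 ≤ δ → S.card ≤ 4096 * t ^ 3 * A ^ 3 + 2) ∧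
      S.card ≤ 2 ^ 84 * A ^ 19 * t ^ 18 ∧
      ∀ g : P, (∀ v ∈ S, g • v = v) → ∀ v : V, g • v = v := by
  have hAt : 1 ≤ A ^ 9 * t ^ 9 := Nat.mul_pos (Nat.pow_pos (by omega)) (Nat.pow_pos (by omega))
  by_cases hδ : 2 ^ 42 * A ^ 9 * t ^ 9 ≤ δ
  · have ht9 : t ≤ A ^ 9 * t ^ 9 := by
      calc t ≤ t ^ 9 := Nat.le_self_pow (by norm_num) t
        _ ≤ A ^ 9 * t ^ 9 := Nat.le_mul_of_pos_left _ (Nat.pow_pos (by omega))
    have e : 2 ^ 42 * A ^ 9 * t ^ 9 = 2 ^ 42 * (A ^ 9 * t ^ 9) := by ring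
    obtain ⟨d, hd⟩ : ∃ d, d = δ - t - 1 := ⟨_, rfl⟩
    have hd1 : d + 1 + t = δ := by omega
    have hd2 : δ ≤ 2 * d := by omega
    obtain ⟨S, h1, h2⟩ := base_large (B := 4 * A) (d := d) ha hG ht (by omega) (by
        calc 2 ^ 23 * (4 * A) ^ 9 * t ^ 9 = 2 ^ 41 * (A ^ 9 * t ^ 9) := by ring
          _ ≤ d := by omega) (by
        intro v
        rw [hd1]
        exact hdeg v) (by
        calc Fintype.card V ≤ A * δ ^ 2 := hn
          _ ≤ A * (2 * d) ^ 2 := Nat.mul_le_mul_left _ (Nat.pow_le_pow_left hd2 2)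
          _ = _ := by ring)
    have h3 : S.card ≤ 4096 * t ^ 3 * A ^ 3 + 2 := by
      refine h1.trans (le_of_eq ?_)
      ring
    refine ⟨S, fun _ => h3, ?_, h2⟩
    have h4 : t ^ 3 * A ^ 3 ≤ A ^ 19 * t ^ 18 := by
      calc t ^ 3 * A ^ 3 ≤ t ^ 18 * A ^ 19 :=
            Nat.mul_le_mul (Nat.pow_le_pow_right ht (by norm_num))
              (Nat.pow_le_pow_right hA (by norm_num))
        _ = _ := by ring
    have h5 : 1 ≤ A ^ 19 * t ^ 18 := Nat.mul_pos (Nat.pow_pos (by omega)) (Nat.pow_pos (by omega))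
    have e2 : 4096 * t ^ 3 * A ^ 3 = 4096 * (t ^ 3 * A ^ 3) := by ring
    have e3 : 2 ^ 84 * A ^ 19 * t ^ 18 = 2 ^ 84 * (A ^ 19 * t ^ 18) := by ring
    omega
  · refine ⟨univ, fun h => absurd h hδ, ?_, fun g hg v => hg v (mem_univ v)⟩
    rw [card_univ]
    calc Fintype.card V ≤ A * δ ^ 2 := hn
      _ ≤ A * (2 ^ 42 * A ^ 9 * t ^ 9) ^ 2 :=
          Nat.mul_le_mul_left _ (Nat.pow_le_pow_left (by omega) 2)
      _ = _ := by ring

end Run7.h33.AB
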