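import Mathlib

/-!
# Orbits of subgroups of a finite group
-/

set_option autoImplicit false
set_option linter.unusedSectionVars false

namespace Run7.h33.AB

open Finset MulAction

section

variable {P V : Type} [Group P] [Finite P] [MulAction P V] [Fintype V] [DecidableEq V]

/-- The orbit of `z` under the subgroup `K`. -/
noncomputable def orb (K : Subgroup P) (z : V) : Finset V := by
  classical
  exact univ.filter fun v => ∃ g ∈ K, g • z = v

theorem mem_orb {K : Subgroup P} {z v : V} : v ∈ orb K z ↔ ∃ g ∈ K, g • z = v := by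
  simp [orb]

theorem self_mem_orb (K : Subgroup P) (z : V) : z ∈ orb K z :=
  mem_orb.2 ⟨1, K.one_mem, one_smul _ _⟩

theorem orb_mono {K L : Subgroup P} (h : K ≤ L) (z : V) : orb K z ⊆ orb L z := by
  intro v hv
  obtain ⟨g, hg, rfl⟩ := mem_orb.1 hv
  exact mem_orb.2 ⟨g, h hg, rfl⟩

/-- Orbits and stabilizers. -/
theorem card_orb (K : Subgroup P) (z : V) :
    (orb K z).card * Nat.card (K ⊓ stabilizer P z : Subgroup P) = Nat.card K := by
  have h1 : Nat.card (stabilizer K z) * (stabilizer K z).index = Nat.card K :=
    Subgroup.card_mul_index _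
  have h2 : (stabilizer K z).index = (orb K z).card := by
    rw [index_stabilizer, ← Set.ncard_coe_finset]
    congr 1
    ext v
    rw [mem_coe, mem_orb, mem_orbit_iff]
    constructor
    · rintro ⟨⟨g, hg⟩, h⟩
      exact ⟨g, hg, h⟩
    · rintro ⟨g, hg, h⟩
      exact ⟨⟨g, hg⟩, h⟩
  have h3 : Nat.card (stabilizer K z) = Nat.card (K ⊓ stabilizer P z : Subgroup P) := by
    have e : (stabilizer K z).map K.subtype = K ⊓ stabilizer P z := by
      ext g
      rw [Subgroup.mem_map, Subgroup.mem_inf]
      constructor
      · rintro ⟨⟨g', hg'⟩, h, rfl⟩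
        exact ⟨hg', h⟩
      · rintro ⟨hg, h⟩
        exact ⟨⟨g, hg⟩, h, rfl⟩
    rw [← e, Subgroup.card_map_of_injective K.subtype_injective]
  rw [← h3, ← h2, mul_comm]
  exact h1

theorem card_pos' (K : Subgroup P) : 0 < Nat.card K := Nat.card_pos

theorem card_le' {K L : Subgroup P} (h : K ≤ L) : Nat.card K ≤ Nat.card L :=
  Nat.card_le_card_of_injective (Subgroup.inclusion h) (Subgroup.inclusion_injective h)

/-- `|z ^ K| ≤ |y ^ K| |z ^ (K ∩ P_y)|`. -/
theorem orb_le_mul (K : Subgroup P) (y z : V) :
    (orb K z).card ≤ (orb K y).card * (orb (K ⊓ stabilizer P y) z).card := by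
  have h1 := card_orb K z
  have h2 := card_orb K y
  have h3 := card_orb (K ⊓ stabilizer P y) z
  have h4 : Nat.card (K ⊓ stabilizer P y ⊓ stabilizer P z : Subgroup P) ≤
      Nat.card (K ⊓ stabilizer P z : Subgroup P) :=
    card_le' (le_inf (inf_le_left.trans inf_le_left) inf_le_right)
  have h5 : 0 < Nat.card (K ⊓ stabilizer P z : Subgroup P) := card_pos' _
  refine Nat.le_of_mul_le_mul_right ?_ h5
  calc (orb K z).card * Nat.card (K ⊓ stabilizer P z : Subgroup P)
      = (orb K y).card * ((orb (K ⊓ stabilizer P y) z).card *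
        Nat.card (K ⊓ stabilizer P y ⊓ stabilizer P z : Subgroup P)) := by
          rw [h1, h3, h2]
    _ ≤ (orb K y).card * ((orb (K ⊓ stabilizer P y) z).card *
        Nat.card (K ⊓ stabilizer P z : Subgroup P)) :=
          Nat.mul_le_mul_left _ (Nat.mul_le_mul_left _ h4)
    _ = _ := by ring

/-- If the stabilizer of `x` has at most as many elements as that of `z`, then the orbit of `z` under
the stabilizer of `x` has at most as many elements as that of `x` under the stabilizer of `z`. -/
theorem orb_le_orb {x z : V} (h : Nat.card (stabilizer P x) ≤ Nat.card (stabilizer P z)) :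
    (orb (stabilizer P x) z).card ≤ (orb (stabilizer P z) x).card := by
  have h1 := card_orb (stabilizer P x) z
  have h2 := card_orb (stabilizer P z) x
  rw [inf_comm] at h2
  have h3 : 0 < Nat.card (stabilizer P x ⊓ stabilizer P z : Subgroup P) := card_pos' _
  refine Nat.le_of_mul_le_mul_right ?_ h3
  rw [h1, h2]
  exact h

/-- If the stabilizer of `x` has at most as many elements as that of `z`, then the orbit of `z` has at
most as many elements as that of `x`. -/
theorem orb_top_le {x z : V} (h : Nat.card (stabilizer P x) ≤ Nat.card (stabilizer P z)) :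
    (orb (⊤ : Subgroup P) z).card ≤ (orb (⊤ : Subgroup P) x).card := by
  have h1 := card_orb (⊤ : Subgroup P) z
  have h2 := card_orb (⊤ : Subgroup P) x
  rw [top_inf_eq] at h1 h2
  have h3 : 0 < Nat.card (stabilizer P z) := card_pos' _
  refine Nat.le_of_mul_le_mul_right ?_ h3
  rw [h1, ← h2]
  exact Nat.mul_le_mul_left _ h

end

section

variable {P V : Type} [CommGroup P] [Finite P] [MulAction P V] [Fintype V] [DecidableEq V]

theorem stab_smul (g : P) (z : V) : stabilizer P (g • z) = stabilizer P z := by
  ext h
  rw [mem_stabilizer_iff, mem_stabilizer_iff, smul_smul, mul_comm, ← smul_smul]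
  constructor
  · intro h1
    exact (MulAction.injective g) h1
  · intro h1
    rw [h1]

end

end Run7.h33.AB
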