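import Pool.Agent.Run7.h33.LL.Lam
import Pool.Agent.Run7.h33.AB.Orb

/-!
# Graphs with few common neighbours and groups of automorphisms: basic facts
-/

set_option autoImplicit false
set_option linter.unusedSectionVars false

namespace Run7.h33.AB

open SimpleGraph Finset MulAction Run7.h33.NM Run7.h33.LL

section

variable {V : Type} [Fintype V] [DecidableEq V] {G : SimpleGraph V} {t : ℕ}

theorem sum_comm' (X Y : Finset V) :
    ∑ w ∈ Y, (nb G w ∩ X).card = ∑ x ∈ X, (nb G x ∩ Y).card := by
  classical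
  have e1 : ∀ w ∈ Y, (nb G w ∩ X).card = ∑ x ∈ X, if G.Adj x w then 1 else 0 := by
    intro w _
    rw [← card_filter]
    congr 1
    ext z
    rw [mem_inter, mem_nb, mem_filter, G.adj_comm]
    tauto
  have e2 : ∀ x ∈ X, (nb G x ∩ Y).card = ∑ w ∈ Y, if G.Adj x w then 1 else 0 := by
    intro x _
    rw [← card_filter]
    congr 1
    ext a
    rw [mem_inter, mem_nb, mem_filter]
    tauto
  rw [sum_congr rfl e1, sum_congr rfl e2, sum_comm]

/-- The inequality of Kovari, Sos and Turan. -/
theorem kst (hG : Cn G t) (X Y : Finset V) :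
    (∑ x ∈ X, (nb G x ∩ Y).card) ^ 2 ≤
      Y.card * (∑ x ∈ X, (nb G x ∩ Y).card + t * X.card ^ 2) := by
  classical
  obtain ⟨e, he⟩ : ∃ e, e = ∑ x ∈ X, (nb G x ∩ Y).card := ⟨_, rfl⟩
  rw [← he]
  have h1 : ∑ w ∈ Y, (nb G w ∩ X).card = e := by rw [he]; exact sum_comm' X Y
  have h2 : (∑ w ∈ Y, (nb G w ∩ X).card) ^ 2 ≤ Y.card * ∑ w ∈ Y, (nb G w ∩ X).card ^ 2 :=
    sq_sum_le_card_mul_sum_sq
  have h3 : ∑ w ∈ Y, (nb G w ∩ X).card ^ 2 ≤ e + t * X.card ^ 2 := by
    have e1 : ∀ w ∈ Y, (nb G w ∩ X).card ^ 2 =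
        ∑ x ∈ X, ∑ x' ∈ X, if G.Adj x w ∧ G.Adj x' w then 1 else 0 := by
      intro w _
      have e2 : (nb G w ∩ X).card = ∑ x ∈ X, if G.Adj x w then 1 else 0 := by
        rw [← card_filter]
        congr 1
        ext z
        rw [mem_inter, mem_nb, mem_filter, G.adj_comm]
        tauto
      rw [pow_two, e2, sum_mul_sum]
      refine sum_congr rfl fun x _ => sum_congr rfl fun x' _ => ?_
      by_cases h : G.Adj x w
      · by_cases h' : G.Adj x' w
        · simp [h, h']
        · simp [h']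
      · simp [h]
    rw [sum_congr rfl e1, sum_comm]
    calc ∑ x ∈ X, ∑ w ∈ Y, ∑ x' ∈ X, (if G.Adj x w ∧ G.Adj x' w then 1 else 0)
        ≤ ∑ x ∈ X, ((nb G x ∩ Y).card + t * X.card) := by
          refine sum_le_sum fun x hx => ?_
          rw [sum_comm]
          rw [← sum_erase_add _ _ hx]
          have h4 : ∑ w ∈ Y, (if G.Adj x w ∧ G.Adj x w then 1 else 0) = (nb G x ∩ Y).card := by
            rw [← card_filter]
            congr 1
            ext w
            rw [mem_filter, mem_inter, mem_nb]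
            tauto
          have h5 : ∑ x' ∈ X.erase x, ∑ w ∈ Y, (if G.Adj x w ∧ G.Adj x' w then 1 else 0) ≤
              t * X.card := by
            calc ∑ x' ∈ X.erase x, ∑ w ∈ Y, (if G.Adj x w ∧ G.Adj x' w then 1 else 0)
                ≤ ∑ _x' ∈ X.erase x, t := by
                  refine sum_le_sum fun x' hx' => ?_
                  rw [← card_filter]
                  refine le_trans (card_le_card ?_) (hG x x' (ne_of_mem_erase hx').symm)
                  intro w hw
                  rw [mem_filter] at hw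
                  rw [mem_inter, mem_nb, mem_nb]
                  exact hw.2
              _ = t * (X.erase x).card := by rw [sum_const, smul_eq_mul, mul_comm]
              _ ≤ _ := Nat.mul_le_mul_left _ (card_le_card (erase_subset _ _))
          rw [h4]
          omega
      _ = e + t * X.card ^ 2 := by
          rw [sum_add_distrib, ← he, sum_const, smul_eq_mul]
          ring
  rw [h1] at h2
  exact h2.trans (Nat.mul_le_mul_left _ h3)

end

section

variable {P V : Type} [CommGroup P] [Finite P] [MulAction P V] [Fintype V] [DecidableEq V]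
  {G : SimpleGraph V} {t : ℕ}

/-- The action preserves adjacency. -/
def Pres (P : Type) {V : Type} [CommGroup P] [MulAction P V] (G : SimpleGraph V) : Prop :=
  ∀ (g : P) (x y : V), G.Adj x y → G.Adj (g • x) (g • y)

/-- The stabilizer. -/
abbrev st (P : Type) {V : Type} [CommGroup P] [MulAction P V] (x : V) : Subgroup P :=
  stabilizer P x

theorem exists_ne_of_two_le {s : Finset V} {x : V} (h : 2 ≤ s.card) : ∃ x' ∈ s, x' ≠ x := by
  by_contra hcon
  push Not at hcon
  have h1 : s ⊆ {x} := fun y hy => mem_singleton.2 (hcon y hy)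
  have h2 := card_le_card h1
  rw [card_singleton] at h2
  omega

/-- If the orbit of `x` under the stabilizer of `y` has two elements, then the orbit of `y` under the
stabilizer of `x` has at most `t` elements. -/
theorem bip (ha : Pres P G) (hG : Cn G t) {x y : V} (hxy : G.Adj x y)
    (h : 2 ≤ (orb (st P y) x).card) : (orb (st P x) y).card ≤ t := by
  obtain ⟨x', hx', hne⟩ := exists_ne_of_two_le (x := x) h
  obtain ⟨g, hg, rfl⟩ := mem_orb.1 hx'
  refine le_trans (card_le_card ?_) (hG _ _ hne)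
  intro w hw
  obtain ⟨h, hh, rfl⟩ := mem_orb.1 hw
  rw [mem_inter, mem_nb, mem_nb]
  have h1 : g • y = y := hg
  have h2 : h • x = x := hh
  constructor
  · have h3 := ha h _ _ (ha g _ _ hxy)
    rw [h1, smul_smul, mul_comm, ← smul_smul, h2] at h3
    exact h3
  · have h3 := ha h _ _ hxy
    rw [h2] at h3
    exact h3

theorem near_nb (ha : Pres P G) (hG : Cn G t) (ht : 1 ≤ t) {x y : V} (hxy : G.Adj x y)
    (hm : Nat.card (st P x) ≤ Nat.card (st P y)) : (orb (st P x) y).card ≤ t := by
  by_cases h : 2 ≤ (orb (st P y) x).card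
  · exact bip ha hG hxy h
  · have h1 : (orb (st P x) y).card ≤ (orb (st P y) x).card := orb_le_orb hm
    omega

theorem le_of_orb_one {K : Subgroup P} {y : V} (h : (orb K y).card < 2) : K ≤ st P y := by
  intro g hg
  rw [mem_stabilizer_iff]
  by_contra hne
  have h1 : ({y, g • y} : Finset V) ⊆ orb K y := by
    intro v hv
    rw [mem_insert, mem_singleton] at hv
    rcases hv with rfl | rfl
    · exact self_mem_orb _ _
    · exact mem_orb.2 ⟨g, hg, rfl⟩
  have h2 := card_le_card h1
  rw [card_pair (fun h => hne h.symm)] at h2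
  omega

/-- Far vertices at distance two. -/
theorem bad (ha : Pres P G) (hG : Cn G t) (ht : 1 ≤ t) {x y z : V} (hxy : G.Adj x y)
    (hyz : G.Adj y z) (hm : Nat.card (st P x) ≤ Nat.card (st P y))
    (hT : t ^ 2 < (orb (st P x) z).card) : st P z ≤ st P y := by
  refine le_of_orb_one ?_
  by_contra hcon
  have h1 : (orb (st P y) z).card ≤ t := by
    refine bip ha hG hyz ?_
    omega
  have h2 := near_nb ha hG ht hxy hm
  have h3 := orb_le_mul (st P x) y z
  have h4 : (orb (st P x ⊓ st P y) z).card ≤ (orb (st P y) z).card :=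
    card_le_card (orb_mono inf_le_right z)
  have h5 : (orb (st P x) z).card ≤ t ^ 2 := by
    calc (orb (st P x) z).card ≤ _ := h3
      _ ≤ t * t := Nat.mul_le_mul h2 (h4.trans h1)
      _ = t ^ 2 := (pow_two t).symm
  omega

theorem orb_common (ha : Pres P G) (hG : Cn G t) {x y y' : V} {K : Subgroup P}
    (hxy : G.Adj x y) (hxy' : G.Adj x y') (hne : y ≠ y') (hy : K ≤ st P y) (hy' : K ≤ st P y') :
    (orb K x).card ≤ t := by
  refine le_trans (card_le_card ?_) (hG _ _ hne)
  intro w hw
  obtain ⟨h, hh, rfl⟩ := mem_orb.1 hw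
  rw [mem_inter, mem_nb, mem_nb]
  have h1 : h • y = y := hy hh
  have h2 : h • y' = y' := hy' hh
  have h3 := ha h _ _ hxy
  have h4 := ha h _ _ hxy'
  rw [h1] at h3
  rw [h2] at h4
  exact ⟨h3.symm, h4.symm⟩

/-- Uniqueness. -/
theorem uniq (ha : Pres P G) (hG : Cn G t) {x y y' z z' : V} (hxy : G.Adj x y)
    (hxy' : G.Adj x y') (hz : st P z ≤ st P y) (hz' : st P z' ≤ st P y')
    (he : st P z = st P z') (hm : Nat.card (st P x) ≤ Nat.card (st P z))
    (hT : t < (orb (st P x) z).card) : y = y' := by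
  by_contra hne
  have h1 : (orb (st P z) x).card ≤ t :=
    orb_common ha hG hxy hxy' hne hz (he.le.trans hz')
  have h2 : (orb (st P x) z).card ≤ (orb (st P z) x).card := orb_le_orb hm
  omega

/-- The vertices with the same stabilizer as `z`. -/
noncomputable def cla (P : Type) {V : Type} [CommGroup P] [MulAction P V] [Fintype V]
    (z : V) : Finset V := by
  classical
  exact univ.filter fun v => st P v = st P z

theorem mem_cla {z v : V} : v ∈ cla P z ↔ st P v = st P z := by
  simp [cla]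

theorem card_nb_smul (ha : Pres P G) (g : P) (y z : V) :
    (nb G (g • y) ∩ cla P z).card = (nb G y ∩ cla P z).card := by
  refine (card_bij (fun w _ => g • w) ?_ ?_ ?_).symm
  · intro w hw
    rw [mem_inter, mem_nb, mem_cla] at hw ⊢
    exact ⟨ha g _ _ hw.1, (stab_smul g w).trans hw.2⟩
  · intro w _ w' _ h
    exact MulAction.injective g h
  · intro w hw
    rw [mem_inter, mem_nb, mem_cla] at hw
    refine ⟨g⁻¹ • w, ?_, smul_inv_smul g w⟩
    rw [mem_inter, mem_nb, mem_cla]
    have h1 := ha g⁻¹ _ _ hw.1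
    rw [inv_smul_smul] at h1
    exact ⟨h1, (stab_smul g⁻¹ w).trans hw.2⟩

/-- A vertex adjacent to a positive fraction of a class has a small orbit. -/
theorem rich {B : ℕ} (ha : Pres P G) (hG : Cn G t) (ht : 1 ≤ t) {y z : V}
    (hz : st P z ≤ st P y) (hr : (cla P z).card ≤ 4 * B * (nb G y ∩ cla P z).card) :
    (orb (⊤ : Subgroup P) y).card ≤ 32 * B ^ 2 * t := by
  obtain ⟨m, hm⟩ : ∃ m, m = (nb G y ∩ cla P z).card := ⟨_, rfl⟩
  obtain ⟨k, hk⟩ : ∃ k, k = (orb (⊤ : Subgroup P) y).card := ⟨_, rfl⟩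
  obtain ⟨c, hc⟩ : ∃ c, c = (cla P z).card := ⟨_, rfl⟩
  have hzc : z ∈ cla P z := mem_cla.2 rfl
  have hc1 : 1 ≤ c := by
    rw [hc]
    exact card_pos.2 ⟨z, hzc⟩
  rw [← hm, ← hc] at hr
  rw [← hk]
  have hm1 : 1 ≤ m := by
    rcases Nat.eq_zero_or_pos m with h | h
    · rw [h, mul_zero] at hr
      omega
    · exact h
  have hsum : ∑ x ∈ orb (⊤ : Subgroup P) y, (nb G x ∩ cla P z).card = k * m := by
    have e : ∀ x ∈ orb (⊤ : Subgroup P) y, (nb G x ∩ cla P z).card = m := by
      intro x hx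
      obtain ⟨g, -, rfl⟩ := mem_orb.1 hx
      rw [card_nb_smul ha, hm]
    rw [sum_congr rfl e, sum_const, smul_eq_mul, hk]
  have h1 := kst hG (orb (⊤ : Subgroup P) y) (cla P z)
  rw [hsum, ← hk, ← hc] at h1
  have hk1 : 1 ≤ k := by
    rw [hk]
    exact card_pos.2 ⟨y, self_mem_orb _ _⟩
  have hBt : B ≤ B ^ 2 * t := by
    calc B ≤ B ^ 2 := Nat.le_self_pow (by norm_num) B
      _ ≤ B ^ 2 * t := Nat.le_mul_of_pos_right _ ht
  by_cases hcase : 8 * B * t ≤ m
  · have h2 : k * m ≤ 4 * B * (m + k * t) := by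
      have h3 : k * m * (k * m) ≤ k * m * (4 * B * (m + k * t)) := by
        calc k * m * (k * m) = (k * m) ^ 2 := (pow_two _).symm
          _ ≤ c * (k * m + t * k ^ 2) := h1
          _ ≤ 4 * B * m * (k * m + t * k ^ 2) := Nat.mul_le_mul_right _ hr
          _ = _ := by ring
      exact Nat.le_of_mul_le_mul_left h3 (Nat.mul_pos hk1 hm1)
    have h4 : 2 * (4 * B * (k * t)) ≤ k * m := by
      calc 2 * (4 * B * (k * t)) = k * (8 * B * t) := by ring
        _ ≤ k * m := Nat.mul_le_mul_left _ hcase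
    have h5 : k * m ≤ 8 * B * m := by
      have e : 4 * B * (m + k * t) = 4 * B * m + 4 * B * (k * t) := by ring
      have e2 : 8 * B * m = 2 * (4 * B * m) := by ring
      omega
    have h6 : k ≤ 8 * B := Nat.le_of_mul_le_mul_right h5 hm1
    calc k ≤ 8 * B := h6
      _ ≤ 32 * (B ^ 2 * t) := by omega
      _ = _ := by ring
  · have h2 : k ≤ c := by
      rw [hk, hc]
      refine le_trans (orb_top_le (card_le' hz)) (card_le_card ?_)
      intro v hv
      obtain ⟨g, -, rfl⟩ := mem_orb.1 hv
      exact mem_cla.2 (stab_smul g z)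
    calc k ≤ c := h2
      _ ≤ 4 * B * m := hr
      _ ≤ 4 * B * (8 * B * t) := Nat.mul_le_mul_left _ (by omega)
      _ = _ := by ring

end

end Run7.h33.AB
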