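import Pool.Agent.Run7.h33.AB.Cnt

/-!
# Abelian groups: many vertices with small orbits under the stabilizer of a vertex
-/

set_option autoImplicit false
set_option linter.unusedSectionVars false

namespace Run7.h33.AB

open SimpleGraph Finset MulAction Run7.h33.NM Run7.h33.LL

variable {P V : Type} [CommGroup P] [Finite P] [MulAction P V] [Fintype V] [DecidableEq V]
  {G : SimpleGraph V} {t : ℕ}

/-- The fixed vertices. -/
noncomputable def fx (P : Type) (V : Type) [CommGroup P] [MulAction P V] [Fintype V] :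
    Finset V := by
  classical
  exact univ.filter fun v => st P v = ⊤

theorem mem_fx {v : V} : v ∈ fx P V ↔ st P v = ⊤ := by
  simp [fx]

theorem smul_of_mem_fx {v : V} (h : v ∈ fx P V) (g : P) : g • v = v := by
  rw [mem_fx] at h
  have h1 : g ∈ st P v := by
    rw [h]
    exact Subgroup.mem_top g
  exact h1

/-- A moved vertex has at most `t` fixed neighbours. -/
theorem card_nb_fx (ha : Pres P G) (hG : Cn G t) {v : V} (hv : v ∉ fx P V) :
    (nb G v ∩ fx P V).card ≤ t := by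
  obtain ⟨g, hg⟩ : ∃ g : P, g • v ≠ v := by
    by_contra hcon
    push Not at hcon
    refine hv (mem_fx.2 ?_)
    rw [eq_top_iff]
    intro g _
    exact hcon g
  refine le_trans (card_le_card ?_) (hG v (g • v) hg.symm)
  intro w hw
  rw [mem_inter, mem_nb] at hw
  rw [mem_inter, mem_nb, mem_nb]
  have h1 := ha g _ _ hw.1
  rw [smul_of_mem_fx hw.2] at h1
  exact ⟨hw.1, h1⟩

theorem card_nb_sdiff (ha : Pres P G) (hG : Cn G t) {e : ℕ}
    (hdeg : ∀ v, e + t ≤ (nb G v).card) {v : V} (hv : v ∉ fx P V) :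
    e ≤ (nb G v \ fx P V).card := by
  have h1 := card_nb_fx ha hG hv
  have h2 := card_sdiff_add_card_inter (nb G v) (fx P V)
  have h3 := hdeg v
  omega

theorem sum_fib_le {α β : Type} (s : Finset α) (T : Finset β) (f : α → β)
    [∀ b, DecidablePred fun a => f a = b] : ∑ b ∈ T, (s.filter fun a => f a = b).card ≤ s.card := by
  classical
  rw [← card_sigma]
  refine card_le_card_of_injOn (fun q => q.2) ?_ ?_
  · intro q hq
    rw [mem_coe, mem_sigma, mem_filter] at hq
    exact hq.2.1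
  · rintro ⟨b, a⟩ h ⟨b', a'⟩ h' e
    rw [mem_coe, mem_sigma, mem_filter] at h h'
    have e1 := h.2.2
    have e2 := h'.2.2
    simp only at e e1 e2
    subst e
    rw [← e1, ← e2]

/-- Many vertices have a small orbit under the stabilizer of some vertex. -/
theorem stage1 {B d : ℕ} (ha : Pres P G) (hG : Cn G t) (ht : 1 ≤ t) (hB : 1 ≤ B) (hd : 4 ≤ d)
    (hdeg : ∀ v, d + 1 + t ≤ (nb G v).card) (hn : Fintype.card V ≤ B * d ^ 2)
    (hne : ∃ v : V, v ∉ fx P V) :
    ∃ x : V, ∃ Z : Finset V, d ^ 2 ≤ 2 * t * Z.card ∧ Disjoint Z (fx P V) ∧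
      ∀ z ∈ Z, (orb (st P x) z).card ≤ 1024 * B ^ 4 * t ^ 3 := by
  classical
  obtain ⟨v₀, hv₀⟩ := hne
  obtain ⟨x, -, hmin'⟩ := exists_min_image univ (fun v : V => Nat.card (st P v)) ⟨v₀, mem_univ _⟩
  have hmin : ∀ v, Nat.card (st P x) ≤ Nat.card (st P v) := fun v => hmin' v (mem_univ _)
  have hx : x ∉ fx P V := by
    intro h
    rw [mem_fx] at h
    refine hv₀ (mem_fx.2 ?_)
    refine Subgroup.eq_top_of_le_card _ ?_
    have h1 := hmin v₀
    rw [h, Subgroup.card_top] at h1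
    exact h1
  obtain ⟨T, hT⟩ : ∃ T, T = 1024 * B ^ 4 * t ^ 3 := ⟨_, rfl⟩
  have hB4 : 1 ≤ B ^ 4 := Nat.pow_pos (by omega)
  have ht2T : t ^ 2 ≤ T := by
    rw [hT]
    calc t ^ 2 ≤ t ^ 3 := Nat.pow_le_pow_right ht (by norm_num)
      _ ≤ 1024 * B ^ 4 * t ^ 3 := Nat.le_mul_of_pos_left _ (by omega)
  have htT : t ≤ T := (Nat.le_self_pow (by norm_num) t).trans ht2T
  obtain ⟨Y, hY, hYc⟩ := exists_subset_card_eq
    (show d ≤ (nb G x \ fx P V).card from
      (Nat.le_succ d).trans (card_nb_sdiff ha hG hdeg hx))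
  have hNd : ∀ y : V, ∃ N' : Finset V, y ∉ fx P V →
      N' ⊆ (nb G y \ fx P V).erase x ∧ N'.card = d := by
    intro y
    by_cases hy : y ∈ fx P V
    · exact ⟨∅, fun h => absurd hy h⟩
    · have h1 := card_nb_sdiff ha hG hdeg hy
      have h2 := pred_card_le_card_erase (s := nb G y \ fx P V) (a := x)
      obtain ⟨N', h3, h4⟩ := exists_subset_card_eq
        (show d ≤ ((nb G y \ fx P V).erase x).card by omega)
      exact ⟨N', fun _ => ⟨h3, h4⟩⟩
  choose Nd hNd using hNd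
  obtain ⟨Q, hQ⟩ : ∃ Q : Finset (Σ _ : V, V), Q = Y.sigma Nd := ⟨_, rfl⟩
  have hYm : ∀ y ∈ Y, G.Adj x y ∧ y ∉ fx P V := by
    intro y hy
    have h1 := hY hy
    rw [mem_sdiff, mem_nb] at h1
    exact h1
  have hQm : ∀ q ∈ Q, G.Adj x q.1 ∧ G.Adj q.1 q.2 ∧ q.2 ∉ fx P V ∧ q.2 ≠ x ∧ q.2 ∈ Nd q.1 := by
    intro q hq
    rw [hQ, mem_sigma] at hq
    obtain ⟨h1, h2⟩ := hYm _ hq.1
    have h3 := (hNd _ h2).1 hq.2
    rw [mem_erase, mem_sdiff, mem_nb] at h3
    exact ⟨h1, h3.2.1, h3.2.2, h3.1, hq.2⟩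
  have hQc : Q.card = d ^ 2 := by
    rw [hQ, card_sigma, sum_congr rfl fun y hy => (hNd y (hYm y hy).2).2, sum_const, hYc,
      smul_eq_mul, pow_two]
  obtain ⟨Q₁, hQ₁⟩ : ∃ Q₁, Q₁ = Q.filter fun q => (orb (st P x) q.2).card ≤ T := ⟨_, rfl⟩
  obtain ⟨Q₂, hQ₂⟩ : ∃ Q₂, Q₂ = Q.filter fun q => ¬ (orb (st P x) q.2).card ≤ T := ⟨_, rfl⟩
  have hQ12 : Q₁.card + Q₂.card = d ^ 2 := by
    rw [← hQc, hQ₁, hQ₂]
    exact card_filter_add_card_filter_not _
  have hmain : 2 * Q₂.card ≤ d ^ 2 := by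
    by_contra hcon
    push Not at hcon
    have hQ2m : ∀ q ∈ Q₂, q ∈ Q ∧ T < (orb (st P x) q.2).card := by
      intro q hq
      rw [hQ₂, mem_filter, not_le] at hq
      exact hq
    have hbad : ∀ q ∈ Q₂, st P q.2 ≤ st P q.1 := by
      intro q hq
      obtain ⟨h1, h2⟩ := hQ2m q hq
      obtain ⟨h3, h4, -⟩ := hQm q h1
      exact bad ha hG ht h3 h4 (hmin _) (lt_of_le_of_lt ht2T h2)
    have huniq : ∀ q ∈ Q₂, ∀ q' ∈ Q₂, st P q.2 = st P q'.2 → q.1 = q'.1 := by
      intro q hq q' hq' he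
      obtain ⟨h1, h2⟩ := hQ2m q hq
      obtain ⟨h3, h4, -⟩ := hQm q h1
      obtain ⟨h5, -⟩ := hQ2m q' hq'
      obtain ⟨h6, -⟩ := hQm q' h5
      exact uniq ha hG h3 h6 (hbad q hq) (hbad q' hq') he (hmin _) (lt_of_le_of_lt htT h2)
    obtain ⟨n, hne⟩ : ∃ n, n = Fintype.card V := ⟨_, rfl⟩
    rw [← hne] at hn
    have hn1 : 1 ≤ n := by
      rw [hne]
      exact Fintype.card_pos_iff.2 ⟨x⟩
    obtain ⟨a, hadef⟩ : ∃ a : Subgroup P → ℕ, a = fun C => (Q₂.filter fun q => st P q.2 = C).card :=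
      ⟨_, rfl⟩
    obtain ⟨k, hkdef⟩ : ∃ k : Subgroup P → ℕ,
        k = fun C => ((univ : Finset V).filter fun v => st P v = C).card := ⟨_, rfl⟩
    obtain ⟨R, hR⟩ : ∃ R, R = Q₂.filter fun q => d ^ 2 * k (st P q.2) ≤ 4 * n * a (st P q.2) :=
      ⟨_, rfl⟩
    obtain ⟨R', hR'⟩ : ∃ R', R' = Q₂.filter fun q =>
      ¬ d ^ 2 * k (st P q.2) ≤ 4 * n * a (st P q.2) := ⟨_, rfl⟩
    have hRR : R.card + R'.card = Q₂.card := by
      rw [hR, hR']
      exact card_filter_add_card_filter_not _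
    have hR'c : 4 * R'.card ≤ d ^ 2 := by
      have h1 : R'.card = ∑ C ∈ R'.image (fun q => st P q.2), (R'.filter fun q =>
          st P q.2 = C).card :=
        card_eq_sum_card_fiberwise fun q hq => mem_image_of_mem _ hq
      have h2 : ∀ C ∈ R'.image (fun q => st P q.2),
          4 * n * (R'.filter fun q => st P q.2 = C).card ≤ d ^ 2 * k C := by
        intro C hC
        obtain ⟨q, hq, rfl⟩ := mem_image.1 hC
        rw [hR', mem_filter, not_le] at hq
        have h3 : (R'.filter fun q' => st P q'.2 = st P q.2).card ≤ a (st P q.2) := by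
          rw [hadef]
          refine card_le_card ?_
          intro q' hq'
          rw [mem_filter] at hq' ⊢
          rw [hR', mem_filter] at hq'
          exact ⟨hq'.1.1, hq'.2⟩
        exact (Nat.mul_le_mul_left _ h3).trans hq.2.le
      have h4 : ∑ C ∈ R'.image (fun q => st P q.2), k C ≤ n := by
        rw [hkdef, hne]
        exact sum_fib_le _ _ _
      have h5 : n * (4 * R'.card) ≤ n * d ^ 2 := by
        calc n * (4 * R'.card) = 4 * n * R'.card := by ring
          _ = ∑ C ∈ R'.image (fun q => st P q.2), 4 * n * (R'.filter fun q =>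
              st P q.2 = C).card := by rw [h1, mul_sum]
          _ ≤ ∑ C ∈ R'.image (fun q => st P q.2), d ^ 2 * k C := sum_le_sum h2
          _ = d ^ 2 * ∑ C ∈ R'.image (fun q => st P q.2), k C := (mul_sum _ _ _).symm
          _ ≤ d ^ 2 * n := Nat.mul_le_mul_left _ h4
          _ = n * d ^ 2 := mul_comm _ _
      exact Nat.le_of_mul_le_mul_left h5 hn1
    have hRc : d < R.card := by
      have h1 : 4 * d ≤ d ^ 2 := by
        rw [pow_two]
        exact Nat.mul_le_mul_right _ hd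
      omega
    have hRm : ∀ q ∈ R, q ∈ Q₂ ∧ d ^ 2 * k (st P q.2) ≤ 4 * n * a (st P q.2) := by
      intro q hq
      rw [hR, mem_filter] at hq
      exact hq
    obtain ⟨q, hq⟩ := card_pos.1 (show 0 < R.card by omega)
    obtain ⟨q', hq', hqq⟩ : ∃ q' ∈ R, q'.1 ≠ q.1 := by
      by_contra hcon2
      push Not at hcon2
      have h1 : R.card ≤ (Nd q.1).card := by
        refine card_le_card_of_injOn (fun r => r.2) ?_ ?_
        · intro r hr
          have h2 := (hQm r (hQ2m r (hRm r hr).1).1).2.2.2.2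
          rw [hcon2 r hr] at h2
          exact h2
        · rintro ⟨y₁, z₁⟩ hr ⟨y₂, z₂⟩ hr' hrr
          have e1 := hcon2 _ hr
          have e2 := hcon2 _ hr'
          simp only at hrr e1 e2
          rw [hrr, e1, e2]
      have h3 := (hNd q.1 (hYm q.1 (by
        have := (hQ2m q (hRm q hq).1).1
        rw [hQ, mem_sigma] at this
        exact this.1)).2).2
      omega
    have hrich : ∀ r ∈ R, (orb (⊤ : Subgroup P) r.1).card ≤ 32 * B ^ 2 * t := by
      intro r hr
      obtain ⟨h1, h2⟩ := hRm r hr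
      refine rich ha hG ht (hbad r h1) ?_
      have h3 : a (st P r.2) ≤ (nb G r.1 ∩ cla P r.2).card := by
        rw [hadef]
        refine card_le_card_of_injOn (fun q => q.2) ?_ ?_
        · intro q'' hq''
          rw [mem_coe, mem_filter] at hq''
          rw [mem_coe, mem_inter, mem_nb, mem_cla]
          have h4 := huniq _ hq''.1 _ h1 hq''.2
          have h5 := (hQm _ (hQ2m _ hq''.1).1).2.1
          rw [h4] at h5
          exact ⟨h5, hq''.2⟩
        · rintro ⟨y₁, z₁⟩ h4 ⟨y₂, z₂⟩ h5 h6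
          rw [mem_coe, mem_filter] at h4 h5
          have h7 := huniq _ h4.1 _ h5.1 (h4.2.trans h5.2.symm)
          simp only at h6 h7
          rw [h6, h7]
      have h4 : k (st P r.2) = (cla P r.2).card := by
        rw [hkdef]
        congr 1
      rw [h4] at h2
      have h5 : 0 < d ^ 2 := Nat.pow_pos (by omega)
      refine Nat.le_of_mul_le_mul_left ?_ h5
      calc d ^ 2 * (cla P r.2).card ≤ 4 * n * a (st P r.2) := h2
        _ ≤ 4 * (B * d ^ 2) * (nb G r.1 ∩ cla P r.2).card :=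
            Nat.mul_le_mul (Nat.mul_le_mul_left _ hn) h3
        _ = _ := by ring
    obtain ⟨h1, h2⟩ := hQ2m q (hRm q hq).1
    obtain ⟨h3, -⟩ := hQm q h1
    obtain ⟨h1', -⟩ := hQ2m q' (hRm q' hq').1
    obtain ⟨h3', -⟩ := hQm q' h1'
    have h4 := orb_le_mul (⊤ : Subgroup P) q.1 x
    have h5 := orb_le_mul ((⊤ : Subgroup P) ⊓ stabilizer P q.1) q'.1 x
    have h6 : (orb ((⊤ : Subgroup P) ⊓ stabilizer P q.1 ⊓ stabilizer P q'.1) x).card ≤ t :=
      orb_common ha hG h3 h3' hqq.symm (inf_le_left.trans inf_le_right) inf_le_right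
    have h7 : (orb ((⊤ : Subgroup P) ⊓ stabilizer P q.1) q'.1).card ≤ 32 * B ^ 2 * t :=
      (card_le_card (orb_mono inf_le_left _)).trans (hrich q' hq')
    have h8 : (orb (⊤ : Subgroup P) x).card ≤ T := by
      calc (orb (⊤ : Subgroup P) x).card ≤ _ := h4
        _ ≤ 32 * B ^ 2 * t * (32 * B ^ 2 * t * t) :=
            Nat.mul_le_mul (hrich q hq) (h5.trans (Nat.mul_le_mul h7 h6))
        _ = T := by
            rw [hT]
            ring
    have h9 : (orb (st P x) q.2).card ≤ (orb (⊤ : Subgroup P) q.2).card :=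
      card_le_card (orb_mono le_top _)
    have h10 : (orb (⊤ : Subgroup P) q.2).card ≤ (orb (⊤ : Subgroup P) x).card :=
      orb_top_le (hmin q.2)
    omega
  refine ⟨x, Q₁.image (fun q => q.2), ?_, ?_, ?_⟩
  · have h1 : Q₁.card ≤ t * (Q₁.image (fun q => q.2)).card := by
      refine card_le_mul_card_image _ _ ?_
      intro z hz
      obtain ⟨q, hq, rfl⟩ := mem_image.1 hz
      have h2 : q ∈ Q := by
        rw [hQ₁, mem_filter] at hq
        exact hq.1
      refine le_trans (card_le_card_of_injOn (t := nb G x ∩ nb G q.2) (fun r => r.1) ?_ ?_)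
        (hG x q.2 (hQm q h2).2.2.2.1.symm)
      · intro r hr
        rw [mem_coe, mem_filter, hQ₁, mem_filter] at hr
        have h3 := hQm r hr.1.1
        rw [mem_coe, mem_inter, mem_nb, mem_nb, ← hr.2]
        exact ⟨h3.1, h3.2.1.symm⟩
      · rintro ⟨y₁, z₁⟩ h4 ⟨y₂, z₂⟩ h5 h6
        rw [mem_coe, mem_filter] at h4 h5
        have e1 := h4.2
        have e2 := h5.2
        simp only at h6 e1 e2
        rw [h6, e1, e2]
    calc d ^ 2 ≤ 2 * Q₁.card := by omega
      _ ≤ 2 * (t * (Q₁.image (fun q => q.2)).card) := Nat.mul_le_mul_left _ h1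
      _ = _ := by ring
  · rw [Finset.disjoint_left]
    intro z hz
    obtain ⟨q, hq, rfl⟩ := mem_image.1 hz
    rw [hQ₁, mem_filter] at hq
    exact (hQm q hq.1).2.2.1
  · intro z hz
    obtain ⟨q, hq, rfl⟩ := mem_image.1 hz
    rw [hQ₁, mem_filter, hT] at hq
    exact hq.2

end Run7.h33.AB
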