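import Pool.Agent.Run7.h33.AB.St1

/-!
# Abelian groups: a large set of vertices with the same stabilizer
-/

set_option autoImplicit false
set_option linter.unusedSectionVars false

namespace Run7.h33.AB

open SimpleGraph Finset MulAction Run7.h33.NM Run7.h33.LL

variable {P V : Type} [CommGroup P] [Finite P] [MulAction P V] [Fintype V] [DecidableEq V]
  {G : SimpleGraph V} {t : ℕ}

theorem sml (ha : Pres P G) (hG : Cn G t) {T : ℕ} {K : Subgroup P} {w z z' : V}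
    (h : G.Adj w z) (h' : G.Adj w z') (hne : z ≠ z') (hz : (orb K z).card ≤ T)
    (hz' : (orb K z').card ≤ T) : (orb K w).card ≤ T ^ 2 * t := by
  have h1 := orb_le_mul K z w
  have h2 := orb_le_mul (K ⊓ stabilizer P z) z' w
  have h3 : (orb (K ⊓ stabilizer P z ⊓ stabilizer P z') w).card ≤ t :=
    orb_common ha hG h h' hne (inf_le_left.trans inf_le_right) inf_le_right
  have h4 : (orb (K ⊓ stabilizer P z) z').card ≤ T :=
    (card_le_card (orb_mono inf_le_left _)).trans hz'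
  calc (orb K w).card ≤ _ := h1
    _ ≤ T * (T * t) := Nat.mul_le_mul hz (h2.trans (Nat.mul_le_mul h4 h3))
    _ = T ^ 2 * t := by ring

/-- The neighbours `z` of `w` such that some element of `K` fixes `z` but not `w`. -/
theorem card_split (ha : Pres P G) (hG : Cn G t) (K : Subgroup P) (w : V) (S : Finset V)
    (hS : ∀ z ∈ S, G.Adj w z ∧ ∃ g ∈ K, g • z = z ∧ g • w ≠ w) :
    S.card ≤ (orb K w).card * t := by
  have h1 : S ⊆ ((orb K w).erase w).biUnion fun w' => nb G w ∩ nb G w' := by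
    intro z hz
    obtain ⟨h2, g, hg, h3, h4⟩ := hS z hz
    rw [mem_biUnion]
    refine ⟨g • w, mem_erase.2 ⟨h4, mem_orb.2 ⟨g, hg, rfl⟩⟩, ?_⟩
    rw [mem_inter, mem_nb, mem_nb]
    have h5 := ha g _ _ h2
    rw [h3] at h5
    exact ⟨h2, h5⟩
  calc S.card ≤ _ := card_le_card h1
    _ ≤ ((orb K w).erase w).card * t :=
        card_biUnion_le_card_mul _ _ _ fun w' hw' => hG _ _ (ne_of_mem_erase hw').symm
    _ ≤ _ := Nat.mul_le_mul_right _ (card_le_card (erase_subset _ _))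

theorem stage2 {B d T : ℕ} (ha : Pres P G) (hG : Cn G t) (ht : 1 ≤ t) (hB : 1 ≤ B)
    (hT : 1 ≤ T) (hd : 8 * t ^ 3 * B * T ^ 2 ≤ d)
    (hdeg : ∀ v, d + 1 + t ≤ (nb G v).card) (hn : Fintype.card V ≤ B * d ^ 2)
    (K : Subgroup P) (Z : Finset V) (hZ : d ^ 2 ≤ 2 * t * Z.card) (hZf : Disjoint Z (fx P V))
    (hZT : ∀ z ∈ Z, (orb K z).card ≤ T) :
    ∃ w ∈ Z, ∃ κ : Finset V, d ^ 2 ≤ 32 * t ^ 3 * B ^ 2 * κ.card ∧ Disjoint κ (fx P V) ∧
      ∀ g ∈ K, g • w = w → ∀ z ∈ κ, g • z = z := by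
  classical
  have hT2 : 1 ≤ T ^ 2 := Nat.pow_pos (by omega)
  have ht3 : 1 ≤ t ^ 3 := Nat.pow_pos (by omega)
  have hd8 : 8 * t * B ≤ d := by
    refine le_trans ?_ hd
    calc 8 * t * B = 8 * t * B * 1 := by ring
      _ ≤ 8 * t ^ 3 * B * T ^ 2 := by
          have : t ≤ t ^ 3 := Nat.le_self_pow (by norm_num) t
          gcongr
  have htB : 1 ≤ t * B := Nat.mul_pos ht hB
  have hd1 : 8 ≤ d := by
    refine le_trans ?_ hd8
    rw [mul_assoc]
    omega
  have hd2 : 1 ≤ d ^ 2 := Nat.pow_pos (by omega)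
  have hZ1 : 1 ≤ Z.card := by
    rcases Nat.eq_zero_or_pos Z.card with h | h
    · rw [h, mul_zero] at hZ
      omega
    · exact h
  have hZm : ∀ z ∈ Z, z ∉ fx P V := fun z hz h => (Finset.disjoint_left.1 hZf) hz h
  obtain ⟨n, hne⟩ : ∃ n, n = Fintype.card V := ⟨_, rfl⟩
  rw [← hne] at hn
  have hnZ : n ≤ 2 * t * B * Z.card := by
    calc n ≤ B * d ^ 2 := hn
      _ ≤ B * (2 * t * Z.card) := Nat.mul_le_mul_left _ hZ
      _ = _ := by ring
  obtain ⟨E, hE⟩ : ∃ E : Finset (Σ _ : V, V), E = Z.sigma fun z => nb G z \ fx P V := ⟨_, rfl⟩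
  have hEm : ∀ q, q ∈ E ↔ q.1 ∈ Z ∧ G.Adj q.1 q.2 ∧ q.2 ∉ fx P V := by
    intro q
    rw [hE, mem_sigma, mem_sdiff, mem_nb]
  have hEc : Z.card * d ≤ E.card := by
    rw [hE, card_sigma, ← smul_eq_mul, ← sum_const]
    refine sum_le_sum fun z hz => ?_
    exact (Nat.le_succ d).trans (card_nb_sdiff ha hG hdeg (hZm z hz))
  obtain ⟨E₁, hE₁⟩ : ∃ E₁, E₁ = E.filter fun q => ∃ g ∈ K, g • q.1 = q.1 ∧ g • q.2 ≠ q.2 :=
    ⟨_, rfl⟩
  obtain ⟨E₂, hE₂⟩ : ∃ E₂, E₂ = E.filter fun q => ∃ g ∈ K, g • q.2 = q.2 ∧ g • q.1 ≠ q.1 :=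
    ⟨_, rfl⟩
  obtain ⟨E₀, hE₀⟩ : ∃ E₀, E₀ = E.filter fun q => K ⊓ st P q.1 = K ⊓ st P q.2 := ⟨_, rfl⟩
  have hcov : E ⊆ E₀ ∪ (E₁ ∪ E₂) := by
    intro q hq
    rw [mem_union, mem_union, hE₀, hE₁, hE₂, mem_filter, mem_filter, mem_filter]
    by_cases h1 : ∃ g ∈ K, g • q.1 = q.1 ∧ g • q.2 ≠ q.2
    · exact Or.inr (Or.inl ⟨hq, h1⟩)
    by_cases h2 : ∃ g ∈ K, g • q.2 = q.2 ∧ g • q.1 ≠ q.1
    · exact Or.inr (Or.inr ⟨hq, h2⟩)
    refine Or.inl ⟨hq, ?_⟩
    push Not at h1 h2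
    refine le_antisymm (fun g hg => ?_) (fun g hg => ?_)
    · exact ⟨hg.1, h1 g hg.1 hg.2⟩
    · exact ⟨hg.1, h2 g hg.1 hg.2⟩
  have hc : E.card ≤ E₀.card + (E₁.card + E₂.card) :=
    (card_le_card hcov).trans ((card_union_le _ _).trans
      (Nat.add_le_add_left (card_union_le _ _) _))
  have hE2c : E₂.card ≤ Z.card * (T * t) := by
    rw [card_eq_sum_card_fiberwise (t := Z) (f := fun q => q.1)
      (fun q hq => by
        rw [mem_coe, hE₂, mem_filter, hEm] at hq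
        exact hq.1.1), ← smul_eq_mul, ← sum_const]
    refine sum_le_sum fun z hz => ?_
    have h1 : ((E₂.filter fun q => q.1 = z).image fun q => q.2).card ≤ (orb K z).card * t := by
      refine card_split ha hG K z _ ?_
      intro w hw
      obtain ⟨q, hq, rfl⟩ := mem_image.1 hw
      rw [mem_filter, hE₂, mem_filter, hEm] at hq
      obtain ⟨⟨⟨h2, h3, h4⟩, g, hg, h5, h6⟩, rfl⟩ := hq
      exact ⟨h3, g, hg, h5, h6⟩
    refine le_trans (le_trans (le_of_eq (card_image_of_injOn ?_).symm) h1)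
      (Nat.mul_le_mul_right _ (hZT z hz))
    rintro ⟨a, b⟩ h2 ⟨a', b'⟩ h3 h4
    rw [mem_coe, mem_filter] at h2 h3
    have e1 := h2.2
    have e2 := h3.2
    simp only at h4 e1 e2
    rw [e1, e2, h4]
  have hE1c : E₁.card ≤ n * (T ^ 2 * t * t) := by
    rw [hne, card_eq_sum_card_fiberwise (t := univ) (f := fun q => q.2)
      (fun q _ => mem_coe.2 (mem_univ _)), ← smul_eq_mul, ← card_univ, ← sum_const]
    refine sum_le_sum fun w _ => ?_
    have e3 : (E₁.filter fun q => q.2 = w).card =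
        ((E₁.filter fun q => q.2 = w).image fun q => q.1).card := by
      refine (card_image_of_injOn ?_).symm
      rintro ⟨a, b⟩ h2 ⟨a', b'⟩ h3 h4
      rw [mem_coe, mem_filter] at h2 h3
      have e1 := h2.2
      have e2 := h3.2
      simp only at h4 e1 e2
      rw [e1, e2, h4]
    rw [e3]
    have hprop : ∀ z ∈ (E₁.filter fun q => q.2 = w).image fun q => q.1,
        z ∈ Z ∧ G.Adj w z ∧ ∃ g ∈ K, g • z = z ∧ g • w ≠ w := by
      intro z hz
      obtain ⟨q, hq, rfl⟩ := mem_image.1 hz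
      rw [mem_filter, hE₁, mem_filter, hEm] at hq
      obtain ⟨⟨⟨h2, h3, h4⟩, g, hg, h5, h6⟩, rfl⟩ := hq
      exact ⟨h2, h3.symm, g, hg, h5, h6⟩
    by_cases hcase : (orb K w).card ≤ T ^ 2 * t
    · exact (card_split ha hG K w _ fun z hz => (hprop z hz).2).trans
        (Nat.mul_le_mul_right _ hcase)
    · have h1 : ((E₁.filter fun q => q.2 = w).image fun q => q.1).card ≤ 1 := by
        rw [card_le_one]
        intro z hz z' hz'
        by_contra hne'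
        obtain ⟨h2, h3, -⟩ := hprop z hz
        obtain ⟨h4, h5, -⟩ := hprop z' hz'
        exact hcase (sml ha hG h3 h5 hne' (hZT z h2) (hZT z' h4))
      refine h1.trans ?_
      exact Nat.mul_pos (Nat.mul_pos hT2 ht) ht
  have hE0c : Z.card * d ≤ 2 * E₀.card := by
    have h1 : 2 * (Z.card * (T * t)) + 2 * (n * (T ^ 2 * t * t)) ≤ Z.card * d := by
      have h2 : 2 * (n * (T ^ 2 * t * t)) ≤ Z.card * (4 * t ^ 3 * B * T ^ 2) := by
        calc 2 * (n * (T ^ 2 * t * t)) ≤ 2 * (2 * t * B * Z.card * (T ^ 2 * t * t)) :=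
              Nat.mul_le_mul_left _ (Nat.mul_le_mul_right _ hnZ)
          _ = _ := by ring
      have h3 : 2 * (Z.card * (T * t)) ≤ Z.card * (4 * t ^ 3 * B * T ^ 2) := by
        calc 2 * (Z.card * (T * t)) = Z.card * (2 * t * 1 * T) := by ring
          _ ≤ Z.card * (4 * t ^ 3 * B * T ^ 2) := by
              have : t ≤ t ^ 3 := Nat.le_self_pow (by norm_num) t
              have : T ≤ T ^ 2 := Nat.le_self_pow (by norm_num) T
              gcongr
              norm_num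
      have h4 : Z.card * (8 * t ^ 3 * B * T ^ 2) ≤ Z.card * d := Nat.mul_le_mul_left _ hd
      have e : Z.card * (8 * t ^ 3 * B * T ^ 2) =
          Z.card * (4 * t ^ 3 * B * T ^ 2) + Z.card * (4 * t ^ 3 * B * T ^ 2) := by ring
      omega
    omega
  obtain ⟨κ, hκ⟩ : ∃ κ : Subgroup P → Finset V,
      κ = fun C => (univ \ fx P V).filter fun v => K ⊓ st P v = C := ⟨_, rfl⟩
  have hκm : ∀ C v, v ∈ κ C ↔ v ∉ fx P V ∧ K ⊓ st P v = C := by
    intro C v
    rw [hκ, mem_filter, mem_sdiff]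
    exact ⟨fun h => ⟨h.1.2, h.2⟩, fun h => ⟨⟨mem_univ _, h.1⟩, h.2⟩⟩
  obtain ⟨C, hC, hCd⟩ : ∃ C ∈ Z.image (fun z => K ⊓ st P z),
      d * (κ C).card ≤ 4 * t * B * (E₀.filter fun q => K ⊓ st P q.1 = C).card := by
    by_contra hcon
    push Not at hcon
    have h1 : E₀.card = ∑ C ∈ Z.image (fun z => K ⊓ st P z),
        (E₀.filter fun q => K ⊓ st P q.1 = C).card := by
      refine card_eq_sum_card_fiberwise fun q hq => ?_
      rw [mem_coe, hE₀, mem_filter, hEm] at hq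
      exact mem_coe.2 (mem_image_of_mem _ hq.1.1)
    have h2 : ∑ C ∈ Z.image (fun z => K ⊓ st P z), (κ C).card ≤ n := by
      rw [hκ]
      refine le_trans (sum_fib_le _ _ _) ?_
      rw [hne]
      exact card_le_univ _
    have h3 : 4 * t * B * E₀.card < d * n := by
      calc 4 * t * B * E₀.card = ∑ C ∈ Z.image (fun z => K ⊓ st P z),
            4 * t * B * (E₀.filter fun q => K ⊓ st P q.1 = C).card := by rw [h1, mul_sum]
        _ < ∑ C ∈ Z.image (fun z => K ⊓ st P z), d * (κ C).card :=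
            sum_lt_sum_of_nonempty ((card_pos.1 hZ1).image _) hcon
        _ = d * ∑ C ∈ Z.image (fun z => K ⊓ st P z), (κ C).card := (mul_sum _ _ _).symm
        _ ≤ d * n := Nat.mul_le_mul_left _ h2
    have h4 : d * n ≤ 4 * t * B * E₀.card := by
      calc d * n ≤ d * (2 * t * B * Z.card) := Nat.mul_le_mul_left _ hnZ
        _ = 2 * t * B * (Z.card * d) := by ring
        _ ≤ 2 * t * B * (2 * E₀.card) := Nat.mul_le_mul_left _ hE0c
        _ = _ := by ring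
    omega
  obtain ⟨w, hw, rfl⟩ := mem_image.1 hC
  obtain ⟨X, hX⟩ : ∃ X, X = Z.filter fun z => K ⊓ st P z = K ⊓ st P w := ⟨_, rfl⟩
  obtain ⟨Y, hY⟩ : ∃ Y, Y = κ (K ⊓ st P w) := ⟨_, rfl⟩
  rw [← hY] at hCd
  have hwY : w ∈ Y := by
    rw [hY, hκm]
    exact ⟨hZm w hw, rfl⟩
  have hY1 : 1 ≤ Y.card := card_pos.2 ⟨w, hwY⟩
  have hXY : X ⊆ Y := by
    intro z hz
    rw [hX, mem_filter] at hz
    rw [hY, hκm]
    exact ⟨hZm z hz.1, hz.2⟩
  obtain ⟨e, he⟩ : ∃ e, e = ∑ x ∈ X, (nb G x ∩ Y).card := ⟨_, rfl⟩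
  have hEe : (E₀.filter fun q => K ⊓ st P q.1 = K ⊓ st P w).card ≤ e := by
    rw [he, ← card_sigma]
    refine card_le_card ?_
    intro q hq
    rw [mem_filter, hE₀, mem_filter, hEm] at hq
    rw [mem_sigma, hX, mem_filter, mem_inter, mem_nb, hY, hκm]
    obtain ⟨⟨⟨h1, h2, h3⟩, h4⟩, h5⟩ := hq
    exact ⟨⟨h1, h5⟩, h2, h3, h4.symm.trans h5⟩
  have hk := kst hG X Y
  rw [← he] at hk
  have h1 : d * Y.card ≤ 4 * t * B * e := hCd.trans (Nat.mul_le_mul_left _ hEe)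
  have h2 : 2 * Y.card ≤ e := by
    have h3 : 4 * t * B * (2 * Y.card) ≤ 4 * t * B * e := by
      calc 4 * t * B * (2 * Y.card) = 8 * t * B * Y.card := by ring
        _ ≤ d * Y.card := Nat.mul_le_mul_right _ hd8
        _ ≤ _ := h1
    have h4 : 0 < 4 * t * B := by
      rw [mul_assoc]
      omega
    exact Nat.le_of_mul_le_mul_left h3 h4
  have h3 : e ^ 2 ≤ 2 * t * Y.card ^ 3 := by
    have h4 : X.card ^ 2 ≤ Y.card ^ 2 := Nat.pow_le_pow_left (card_le_card hXY) 2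
    have h5 : e ^ 2 ≤ Y.card * e + t * Y.card ^ 3 := by
      calc e ^ 2 ≤ Y.card * (e + t * X.card ^ 2) := hk
        _ ≤ Y.card * (e + t * Y.card ^ 2) :=
            Nat.mul_le_mul_left _ (Nat.add_le_add_left (Nat.mul_le_mul_left _ h4) _)
        _ = _ := by ring
    have h6 : 2 * (Y.card * e) ≤ e ^ 2 := by
      calc 2 * (Y.card * e) = 2 * Y.card * e := by ring
        _ ≤ e * e := Nat.mul_le_mul_right _ h2
        _ = e ^ 2 := (pow_two e).symm
    have e1 : 2 * t * Y.card ^ 3 = 2 * (t * Y.card ^ 3) := by ring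
    omega
  refine ⟨w, hw, Y, ?_, ?_, ?_⟩
  · have h4 : Y.card ^ 2 * d ^ 2 ≤ Y.card ^ 2 * (32 * t ^ 3 * B ^ 2 * Y.card) := by
      calc Y.card ^ 2 * d ^ 2 = (d * Y.card) ^ 2 := by ring
        _ ≤ (4 * t * B * e) ^ 2 := Nat.pow_le_pow_left h1 2
        _ = 16 * t ^ 2 * B ^ 2 * e ^ 2 := by ring
        _ ≤ 16 * t ^ 2 * B ^ 2 * (2 * t * Y.card ^ 3) := Nat.mul_le_mul_left _ h3
        _ = _ := by ring
    exact Nat.le_of_mul_le_mul_left h4 (Nat.pow_pos hY1)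
  · rw [Finset.disjoint_left]
    intro v hv
    rw [hY, hκm] at hv
    exact hv.1
  · intro g hg hgw z hz
    rw [hY, hκm] at hz
    have h4 : g ∈ K ⊓ st P w := ⟨hg, hgw⟩
    rw [← hz.2] at h4
    exact h4.2

end Run7.h33.AB
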