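import Pool.Agent.Run7.h33.AB.Aut
import Pool.Agent.N345.Sym.Basic

/-!
# Abelian groups of automorphisms of symmetric designs
-/

set_option autoImplicit false
set_option linter.unusedSectionVars false

namespace Run7.h33.AB

open SimpleGraph Finset MulAction Run7.h33.NM Run7.h33.LL Pool.Agent.N345.Sym

/-- Points and blocks. -/
def Vx (v : ℕ) : Type := Fin v ⊕ Fin v

instance (v : ℕ) : Fintype (Vx v) := inferInstanceAs (Fintype (Fin v ⊕ Fin v))

instance (v : ℕ) : DecidableEq (Vx v) := inferInstanceAs (DecidableEq (Fin v ⊕ Fin v))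

/-- A point as a vertex. -/
def pt {v : ℕ} (x : Fin v) : Vx v := Sum.inl x

/-- A block as a vertex. -/
def bl {v : ℕ} (i : Fin v) : Vx v := Sum.inr i

theorem vx_cases {v : ℕ} (a : Vx v) : (∃ x, a = pt x) ∨ ∃ i, a = bl i := by
  rcases a with x | i
  · exact Or.inl ⟨x, rfl⟩
  · exact Or.inr ⟨i, rfl⟩

theorem pt_inj {v : ℕ} {x y : Fin v} (h : pt x = pt y) : x = y := Sum.inl.inj h

theorem bl_inj {v : ℕ} {x y : Fin v} (h : bl x = bl y) : x = y := Sum.inr.inj h

theorem pt_ne_bl {v : ℕ} {x i : Fin v} : (pt x : Vx v) ≠ bl i := fun h => by cases h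

theorem card_vx (v : ℕ) : Fintype.card (Vx v) = 2 * v := by
  have h : Fintype.card (Vx v) = Fintype.card (Fin v ⊕ Fin v) := rfl
  rw [h, Fintype.card_sum, Fintype.card_fin]
  omega

/-- The incidence graph of a design. -/
def dgr {v : ℕ} (B : Fin v → Finset (Fin v)) : SimpleGraph (Vx v) where
  Adj a b := ∃ x i, x ∈ B i ∧ ((a = pt x ∧ b = bl i) ∨ (a = bl i ∧ b = pt x))
  symm := ⟨by
    rintro a b ⟨x, i, h, h1 | h1⟩
    · exact ⟨x, i, h, Or.inr ⟨h1.2, h1.1⟩⟩
    · exact ⟨x, i, h, Or.inl ⟨h1.2, h1.1⟩⟩⟩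
  loopless := ⟨by
    rintro a ⟨x, i, h, h1 | h1⟩
    · exact pt_ne_bl (h1.1.symm.trans h1.2)
    · exact pt_ne_bl (h1.2.symm.trans h1.1)⟩

theorem adj_pt {v : ℕ} {B : Fin v → Finset (Fin v)} {x : Fin v} {a : Vx v} :
    (dgr B).Adj (pt x) a ↔ ∃ i, x ∈ B i ∧ a = bl i := by
  constructor
  · rintro ⟨y, i, h, h1 | h1⟩
    · rw [pt_inj h1.1]
      exact ⟨i, h, h1.2⟩
    · exact absurd h1.1 pt_ne_bl
  · rintro ⟨i, h, h1⟩
    exact ⟨x, i, h, Or.inl ⟨rfl, h1⟩⟩

theorem adj_bl {v : ℕ} {B : Fin v → Finset (Fin v)} {i : Fin v} {a : Vx v} :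
    (dgr B).Adj (bl i) a ↔ ∃ x, x ∈ B i ∧ a = pt x := by
  constructor
  · rintro ⟨y, j, h, h1 | h1⟩
    · exact absurd h1.1.symm pt_ne_bl
    · rw [bl_inj h1.1]
      exact ⟨y, h, h1.2⟩
  · rintro ⟨x, h, h1⟩
    exact ⟨x, i, h, Or.inr ⟨rfl, h1⟩⟩

section

variable {v k lam : ℕ} {B : Fin v → Finset (Fin v)}

theorem deg_dgr (h : Des v k lam B) (hlam : 1 ≤ lam) (a : Vx v) : (nb (dgr B) a).card = k := by
  rcases vx_cases a with ⟨x, rfl⟩ | ⟨i, rfl⟩
  · rw [← h.rep hlam x]
    refine (card_bij (fun i _ => bl i) ?_ ?_ ?_).symm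
    · intro i hi
      rw [mem_filter] at hi
      rw [mem_nb, adj_pt]
      exact ⟨i, hi.2, rfl⟩
    · intro i _ j _ hij
      exact bl_inj hij
    · intro b hb
      rw [mem_nb, adj_pt] at hb
      obtain ⟨i, hi, rfl⟩ := hb
      exact ⟨i, mem_filter.2 ⟨mem_univ _, hi⟩, rfl⟩
  · rw [← h.size i]
    refine (card_bij (fun x _ => pt x) ?_ ?_ ?_).symm
    · intro x hx
      rw [mem_nb, adj_bl]
      exact ⟨x, hx, rfl⟩
    · intro i _ j _ hij
      exact pt_inj hij
    · intro b hb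
      rw [mem_nb, adj_bl] at hb
      obtain ⟨x, hx, rfl⟩ := hb
      exact ⟨x, hx, rfl⟩

theorem cn_dgr (h : Des v k lam B) (hlam : 1 ≤ lam) : Cn (dgr B) lam := by
  intro a b hab
  rcases vx_cases a with ⟨x, rfl⟩ | ⟨i, rfl⟩
  · rcases vx_cases b with ⟨y, rfl⟩ | ⟨j, rfl⟩
    · have hxy : x ≠ y := fun h => hab (by rw [h])
      rw [← h.pair x y hxy]
      refine card_le_card_of_injOn (fun c => match c with | Sum.inl x => x | Sum.inr x => x) ?_ ?_
      · intro c hc
        rw [mem_coe, mem_inter, mem_nb, mem_nb, adj_pt, adj_pt] at hc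
        obtain ⟨⟨i, hi, rfl⟩, j, hj, hij⟩ := hc
        rw [← bl_inj hij] at hj
        rw [mem_coe, mem_filter]
        exact ⟨mem_univ _, hi, hj⟩
      · intro c hc c' hc' hcc
        rw [mem_coe, mem_inter, mem_nb, mem_nb, adj_pt, adj_pt] at hc hc'
        obtain ⟨⟨i, -, rfl⟩, -⟩ := hc
        obtain ⟨⟨i', -, rfl⟩, -⟩ := hc'
        exact congrArg bl hcc
    · have e : nb (dgr B) (pt x) ∩ nb (dgr B) (bl j) = ∅ := by
        rw [eq_empty_iff_forall_notMem]
        intro c hc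
        rw [mem_inter, mem_nb, mem_nb, adj_pt, adj_bl] at hc
        obtain ⟨⟨i, -, rfl⟩, y, -, h2⟩ := hc
        exact pt_ne_bl h2.symm
      rw [e]
      simp
  · rcases vx_cases b with ⟨y, rfl⟩ | ⟨j, rfl⟩
    · have e : nb (dgr B) (bl i) ∩ nb (dgr B) (pt y) = ∅ := by
        rw [eq_empty_iff_forall_notMem]
        intro c hc
        rw [mem_inter, mem_nb, mem_nb, adj_pt, adj_bl] at hc
        obtain ⟨⟨x, -, rfl⟩, j, -, h2⟩ := hc
        exact pt_ne_bl h2
      rw [e]
      simp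
    · have hij : i ≠ j := fun h => hab (by rw [h])
      rw [← h.inter hlam hij]
      refine card_le_card_of_injOn (fun c => match c with | Sum.inl x => x | Sum.inr x => x) ?_ ?_
      · intro c hc
        rw [mem_coe, mem_inter, mem_nb, mem_nb, adj_bl, adj_bl] at hc
        obtain ⟨⟨x, hx, rfl⟩, y, hy, hxy⟩ := hc
        rw [← pt_inj hxy] at hy
        rw [mem_coe, mem_inter]
        exact ⟨hx, hy⟩
      · intro c hc c' hc' hcc
        rw [mem_coe, mem_inter, mem_nb, mem_nb, adj_bl, adj_bl] at hc hc'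
        obtain ⟨⟨i, -, rfl⟩, -⟩ := hc
        obtain ⟨⟨i', -, rfl⟩, -⟩ := hc'
        exact congrArg pt hcc

/-- The blocks through a point. -/
def dual (B : Fin v → Finset (Fin v)) (x : Fin v) : Finset (Fin v) := univ.filter fun i => x ∈ B i

theorem mem_dual {x i : Fin v} : i ∈ dual B x ↔ x ∈ B i := by simp [dual]

theorem des_dual (h : Des v k lam B) (hlam : 1 ≤ lam) : Des v k lam (dual B) where
  two_le := h.two_le
  lt := h.lt
  size x := h.rep hlam x
  pair i j hij := by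
    rw [← h.inter hlam hij]
    congr 1
    ext x
    rw [mem_filter, mem_inter, mem_dual, mem_dual]
    simp

/-- The action on the blocks. -/
noncomputable def blk {H : Subgroup (Equiv.Perm (Fin v))} (hH : ∀ σ ∈ H, Aut B σ) (σ : H)
    (i : Fin v) : Fin v := (hH σ.1 σ.2 i).choose

theorem blk_spec {H : Subgroup (Equiv.Perm (Fin v))} (hH : ∀ σ ∈ H, Aut B σ) (σ : H)
    (i : Fin v) : (B i).image σ.1 = B (blk hH σ i) := (hH σ.1 σ.2 i).choose_spec

theorem blk_mul (h : Des v k lam B) (hlam : 1 ≤ lam) {H : Subgroup (Equiv.Perm (Fin v))}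
    (hH : ∀ σ ∈ H, Aut B σ) (σ τ : H) (i : Fin v) :
    blk hH (σ * τ) i = blk hH σ (blk hH τ i) := by
  refine h.inj hlam ?_
  rw [← blk_spec hH (σ * τ) i, ← blk_spec hH σ (blk hH τ i), ← blk_spec hH τ i, image_image]
  rfl

theorem blk_one (h : Des v k lam B) (hlam : 1 ≤ lam) {H : Subgroup (Equiv.Perm (Fin v))}
    (hH : ∀ σ ∈ H, Aut B σ) (i : Fin v) : blk hH (1 : H) i = i := by
  refine h.inj hlam ?_
  rw [← blk_spec hH (1 : H) i]
  ext x
  simp

/-- The homomorphism to the permutations of the blocks. -/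
noncomputable def bhom (h : Des v k lam B) (hlam : 1 ≤ lam) {H : Subgroup (Equiv.Perm (Fin v))}
    (hH : ∀ σ ∈ H, Aut B σ) : H →* Equiv.Perm (Fin v) where
  toFun σ := ⟨blk hH σ, blk hH σ⁻¹, fun i => by
    rw [← blk_mul h hlam, inv_mul_cancel, blk_one h hlam], fun i => by
    rw [← blk_mul h hlam, mul_inv_cancel, blk_one h hlam]⟩
  map_one' := Equiv.ext fun i => blk_one h hlam hH i
  map_mul' σ τ := Equiv.ext fun i => blk_mul h hlam hH σ τ i

theorem bhom_mem (h : Des v k lam B) (hlam : 1 ≤ lam) {H : Subgroup (Equiv.Perm (Fin v))}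
    (hH : ∀ σ ∈ H, Aut B σ) (σ : H) {x i : Fin v} (hx : x ∈ B i) :
    σ.1 x ∈ B (bhom h hlam hH σ i) := by
  change σ.1 x ∈ B (blk hH σ i)
  rw [← blk_spec hH σ i]
  exact mem_image_of_mem _ hx

end

section

variable {P : Type} [Group P] {v k lam : ℕ} {B : Fin v → Finset (Fin v)}
  (f e : P →* Equiv.Perm (Fin v))

/-- The action on points and blocks. -/
@[reducible] def act : MulAction P (Vx v) where
  smul g a := match a with
    | Sum.inl x => pt (f g x)
    | Sum.inr i => bl (e g i)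
  one_smul a := by
    rcases a with x | i
    · change pt (f 1 x) = pt x
      rw [map_one]
      rfl
    · change bl (e 1 i) = bl i
      rw [map_one]
      rfl
  mul_smul g g' a := by
    rcases a with x | i
    · change pt (f (g * g') x) = pt (f g (f g' x))
      rw [map_mul]
      rfl
    · change bl (e (g * g') i) = bl (e g (e g' i))
      rw [map_mul]
      rfl

/-- Incidence is preserved. -/
def Inc (B : Fin v → Finset (Fin v)) (f e : P →* Equiv.Perm (Fin v)) : Prop :=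
  ∀ g x i, x ∈ B i → f g x ∈ B (e g i)

variable {f e}

theorem inc_dual (hi : Inc B f e) : Inc (dual B) e f := by
  intro g i x hx
  rw [mem_dual] at hx ⊢
  exact hi g x i hx

theorem image_eq (h : Des v k lam B) (hi : Inc B f e) (g : P) (i : Fin v) :
    (B i).image (f g) = B (e g i) := by
  refine eq_of_subset_of_card_le ?_ ?_
  · intro y hy
    obtain ⟨x, hx, rfl⟩ := mem_image.1 hy
    exact hi g x i hx
  · rw [card_image_of_injective _ (f g).injective, h.size, h.size]

theorem aut_of (h : Des v k lam B) (hi : Inc B f e) (g : P) : Aut B (f g) := fun i =>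
  ⟨e g i, image_eq h hi g i⟩

/-- If all blocks are fixed, then all points are fixed. -/
theorem one_of_blocks (h : Des v k lam B) (hlam : 1 ≤ lam) (hi : Inc B f e) {g : P}
    (hg : e g = 1) : f g = 1 := by
  by_contra hne
  obtain ⟨i, hi'⟩ := exists_moved h hlam hne
  refine hi' (mem_fixB.2 ?_)
  rw [image_eq h hi, hg]
  rfl

theorem inj_e (h : Des v k lam B) (hlam : 1 ≤ lam) (hi : Inc B f e)
    (hf : Function.Injective f) : Function.Injective e := by
  rw [injective_iff_map_eq_one] at hf ⊢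
  intro g hg
  exact hf g (one_of_blocks h hlam hi hg)

theorem fix_card (h : Des v k lam B) (hlam : 1 ≤ lam) (hi : Inc B f e)
    (hf : Function.Injective f) {g : P} (hg : g ≠ 1) (κ : Finset (Vx v))
    (hκ : ∀ z ∈ κ, (act f e).smul g z = z) : κ.card ≤ 4 * k := by
  have hg1 : f g ≠ 1 := fun h1 => hg (hf (h1.trans (map_one f).symm))
  have hg2 : e g ≠ 1 := fun h1 => hg (inj_e h hlam hi hf (h1.trans (map_one e).symm))
  have h1 := fixP_le h hlam (aut_of h hi g) hg1
  have h2 := fixP_le (des_dual h hlam) hlam (aut_of (des_dual h hlam) (inc_dual hi) g) hg2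
  have h3 : κ ⊆ ((fixP (f g)).image pt) ∪ ((fixP (e g)).image bl) := by
    intro z hz
    rw [mem_union, mem_image, mem_image]
    rcases vx_cases z with ⟨x, rfl⟩ | ⟨i, rfl⟩
    · refine Or.inl ⟨x, mem_fixP.2 ?_, rfl⟩
      exact pt_inj (hκ _ hz)
    · refine Or.inr ⟨i, mem_fixP.2 ?_, rfl⟩
      exact bl_inj (hκ _ hz)
  have h4 := card_le_card h3
  have h5 := card_union_le ((fixP (f g)).image pt) ((fixP (e g)).image bl)
  have h6 : ((fixP (f g)).image (pt (v := v))).card ≤ (fixP (f g)).card := card_image_le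
  have h7 : ((fixP (e g)).image (bl (v := v))).card ≤ (fixP (e g)).card := card_image_le
  omega

end

end Run7.h33.AB
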