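import Pool.Agent.Run7.h33.AB.Sym
import Pool.Agent.N345.Sym.Many

/-!
# Abelian groups of automorphisms of symmetric designs: the order
-/

set_option autoImplicit false
set_option linter.unusedSectionVars false

namespace Run7.h33.AB

open SimpleGraph Finset MulAction Run7.h33.NM Run7.h33.LL Pool.Agent.N345.Sym

section

variable {P : Type} [CommGroup P] [Finite P] {v k lam : ℕ} {B : Fin v → Finset (Fin v)}
  {f e : P →* Equiv.Perm (Fin v)}

/-- The orbit of a point. -/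
noncomputable def po (f : P →* Equiv.Perm (Fin v)) (x : Fin v) : Finset (Fin v) := by
  classical
  exact univ.filter fun y => ∃ g, f g x = y

theorem mem_po {x y : Fin v} : y ∈ po f x ↔ ∃ g, f g x = y := by simp [po]

/-- The stabilizer of a point. -/
def ps (f : P →* Equiv.Perm (Fin v)) (x : Fin v) : Subgroup P where
  carrier := {g | f g x = x}
  one_mem' := by
    change f 1 x = x
    rw [map_one]
    rfl
  mul_mem' := by
    intro a b ha hb
    change f (a * b) x = x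
    rw [map_mul, Equiv.Perm.mul_apply, hb, ha]
  inv_mem' := by
    intro a ha
    change f a⁻¹ x = x
    rw [map_inv, Equiv.Perm.inv_eq_iff_eq]
    exact ha.symm

theorem mem_ps {x : Fin v} {g : P} : g ∈ ps f x ↔ f g x = x := Iff.rfl

theorem card_po (x : Fin v) : (po f x).card * Nat.card (ps f x) = Nat.card P := by
  classical
  let _ : MulAction P (Fin v) :=
    { smul := fun g y => f g y
      one_smul := fun y => by
        change f 1 y = y
        rw [map_one]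
        rfl
      mul_smul := fun g g' y => by
        change f (g * g') y = f g (f g' y)
        rw [map_mul]
        rfl }
  have h1 := card_orb (⊤ : Subgroup P) x
  rw [top_inf_eq] at h1
  have h2 : orb (⊤ : Subgroup P) x = po f x := by
    ext y
    rw [mem_orb, mem_po]
    constructor
    · rintro ⟨g, -, h⟩
      exact ⟨g, h⟩
    · rintro ⟨g, h⟩
      exact ⟨g, Subgroup.mem_top _, h⟩
  have h3 : stabilizer P x = ps f x := by
    ext g
    rw [mem_stabilizer_iff, mem_ps]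
    rfl
  rw [h2, h3] at h1
  rw [h1]
  exact Subgroup.card_top

/-- The orbit of a point with non-trivial stabilizer. -/
theorem po_le (h : Des v k lam B) (hlam : 1 ≤ lam) (hi : Inc B f e) (hf : Function.Injective f)
    (x : Fin v) : ps f x = ⊥ ∨ Nat.card P ≤ 2 * k * lam ∨
      (lam : ℝ) * (po f x).card ≤ k + 2 * lam ^ 2 * Real.sqrt (2 * lam + 1) * Real.sqrt k := by
  classical
  obtain ⟨K, hK⟩ : ∃ K, K = (ps f x).map f := ⟨_, rfl⟩
  have hKc : Nat.card K = Nat.card (ps f x) := by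
    rw [hK]
    exact Subgroup.card_map_of_injective hf
  have hsub : po f x ⊆ com K := by
    intro y hy
    obtain ⟨g, rfl⟩ := mem_po.1 hy
    rw [mem_com]
    intro σ hσ
    rw [hK, Subgroup.mem_map] at hσ
    obtain ⟨g', hg', rfl⟩ := hσ
    rw [← Equiv.Perm.mul_apply, ← map_mul, mul_comm, map_mul, Equiv.Perm.mul_apply, mem_ps.1 hg']
  have hKA : ∀ σ ∈ K, Aut B σ := by
    intro σ hσ
    rw [hK, Subgroup.mem_map] at hσ
    obtain ⟨g', -, rfl⟩ := hσ
    exact aut_of h hi g'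
  by_cases hbot : ps f x = ⊥
  · exact Or.inl hbot
  refine Or.inr ?_
  by_cases hl : lam < Nat.card K
  · refine Or.inr ?_
    have h1 := com_le h hlam K hKA hl
    have h2 : ((po f x).card : ℝ) ≤ (com K).card := by exact_mod_cast card_le_card hsub
    exact (mul_le_mul_of_nonneg_left h2 (Nat.cast_nonneg _)).trans h1
  · refine Or.inl ?_
    obtain ⟨g, hg, hg1⟩ : ∃ g ∈ ps f x, g ≠ 1 := by
      by_contra hcon
      push Not at hcon
      exact hbot ((Subgroup.eq_bot_iff_forall _).2 hcon)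
    have h1 : (po f x).card ≤ 2 * k := by
      refine (card_le_card ?_).trans (fixP_le h hlam (aut_of h hi g)
        fun h1 => hg1 (hf (h1.trans (map_one f).symm)))
      intro y hy
      have h2 := (mem_com K).1 (hsub hy) (f g) (by
        rw [hK]
        exact Subgroup.mem_map_of_mem f hg)
      exact mem_fixP.2 h2
    rw [← card_po (f := f) x, ← hKc]
    exact Nat.mul_le_mul h1 (by omega)

theorem pres_act (hi : Inc B f e) : @Pres P (Vx v) _ (act f e) (dgr B) := by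
  let _ : MulAction P (Vx v) := act f e
  rintro g a b ⟨x, i, hx, h1 | h1⟩
  · exact ⟨f g x, e g i, hi g x i hx, Or.inl ⟨by rw [h1.1]; rfl, by rw [h1.2]; rfl⟩⟩
  · exact ⟨f g x, e g i, hi g x i hx, Or.inr ⟨by rw [h1.1]; rfl, by rw [h1.2]; rfl⟩⟩

/-- Two points or blocks with trivial stabilizer. -/
theorem base_two (h : Des v k lam B) (hlam : 1 ≤ lam) (hi : Inc B f e) (hf : Function.Injective f)
    (hk : 2 ^ 51 * lam ^ 9 ≤ k) : ∃ a c : Vx v, ∀ g : P, (act f e).smul g a = a →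
      (act f e).smul g c = c → g = 1 := by
  classical
  let _ : MulAction P (Vx v) := act f e
  have hv0 : 0 < v := by
    have := h.lt
    omega
  have hl9 : lam ≤ lam ^ 9 := Nat.le_self_pow (by norm_num) lam
  have hl39 : lam ^ 3 ≤ lam ^ 9 := Nat.pow_le_pow_right hlam (by norm_num)
  by_cases hne : ∃ z : Vx v, z ∉ fx P (Vx v)
  · obtain ⟨d, hd⟩ : ∃ d, d = k - lam - 1 := ⟨_, rfl⟩
    have hd1 : d + 1 + lam = k := by omega
    have hd2 : k ≤ 2 * d := by omega
    obtain ⟨a, c, -, κ, h1, -, h2⟩ := round (B := 8) (d := d) (pres_act hi) (cn_dgr h hlam) hlam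
      (by norm_num) (by
        calc 2 ^ 23 * 8 ^ 9 * lam ^ 9 = 2 ^ 50 * lam ^ 9 := by norm_num
          _ ≤ d := by omega) (by
        intro z
        rw [deg_dgr h hlam, hd1]) (by
        rw [card_vx]
        have h3 := h.lam_v hlam
        have h4 : v ≤ k * k := (Nat.le_mul_of_pos_left v hlam).trans h3
        have h5 : k * k ≤ 2 * d * (2 * d) := Nat.mul_le_mul hd2 hd2
        calc 2 * v ≤ 2 * (2 * d * (2 * d)) := Nat.mul_le_mul_left _ (h4.trans h5)
          _ = _ := by ring) hne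
    refine ⟨a, c, fun g hga hgc => ?_⟩
    by_contra hg1
    have h3 := fix_card h hlam hi hf hg1 κ fun z hz => h2 g hga hgc z hz
    have h4 : d ^ 2 ≤ 2 ^ 14 * lam ^ 3 * d := by
      calc d ^ 2 ≤ 32 * lam ^ 3 * 8 ^ 2 * κ.card := h1
        _ ≤ 32 * lam ^ 3 * 8 ^ 2 * (4 * (2 * d)) := by
            refine Nat.mul_le_mul_left _ (h3.trans ?_)
            omega
        _ = _ := by ring
    rw [sq] at h4
    have h5 := Nat.le_of_mul_le_mul_right h4 (by omega : 0 < d)
    omega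
  · push Not at hne
    refine ⟨pt ⟨0, hv0⟩, pt ⟨0, hv0⟩, fun g _ _ => hf ?_⟩
    rw [map_one]
    ext x
    have h1 := smul_of_mem_fx (hne (pt x)) g
    have h2 : f g x = x := pt_inj h1
    rw [h2]
    rfl

theorem orb_pt (x : Fin v) :
    @orb P (Vx v) _ (act f e) _ (⊤ : Subgroup P) (pt x) = (po f x).image pt := by
  classical
  let _ : MulAction P (Vx v) := act f e
  ext z
  rw [mem_orb, mem_image]
  constructor
  · rintro ⟨g, -, rfl⟩
    exact ⟨f g x, mem_po.2 ⟨g, rfl⟩, rfl⟩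
  · rintro ⟨y, hy, rfl⟩
    obtain ⟨g, rfl⟩ := mem_po.1 hy
    exact ⟨g, Subgroup.mem_top _, rfl⟩

theorem orb_bl (i : Fin v) :
    @orb P (Vx v) _ (act f e) _ (⊤ : Subgroup P) (bl i) = (po e i).image bl := by
  classical
  let _ : MulAction P (Vx v) := act f e
  ext z
  rw [mem_orb, mem_image]
  constructor
  · rintro ⟨g, -, rfl⟩
    exact ⟨e g i, mem_po.2 ⟨g, rfl⟩, rfl⟩
  · rintro ⟨y, hy, rfl⟩
    obtain ⟨g, rfl⟩ := mem_po.1 hy
    exact ⟨g, Subgroup.mem_top _, rfl⟩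

/-- The product of two orbits. -/
theorem card_le_orbs (h : Des v k lam B) (hlam : 1 ≤ lam) (hi : Inc B f e)
    (hf : Function.Injective f) (hk : 2 ^ 51 * lam ^ 9 ≤ k) :
    ∃ a c : Vx v, Nat.card P ≤ (@orb P (Vx v) _ (act f e) _ (⊤ : Subgroup P) a).card *
      (@orb P (Vx v) _ (act f e) _ (⊤ : Subgroup P) c).card := by
  classical
  let _ : MulAction P (Vx v) := act f e
  obtain ⟨a, c, hac⟩ := base_two h hlam hi hf hk
  refine ⟨a, c, ?_⟩
  have h1 := card_orb (⊤ : Subgroup P) a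
  have h2 := card_orb ((⊤ : Subgroup P) ⊓ stabilizer P a) c
  have h3 : ((⊤ : Subgroup P) ⊓ stabilizer P a ⊓ stabilizer P c : Subgroup P) = ⊥ := by
    rw [Subgroup.eq_bot_iff_forall]
    intro g hg
    rw [Subgroup.mem_inf, Subgroup.mem_inf, mem_stabilizer_iff, mem_stabilizer_iff] at hg
    exact hac g hg.1.2 hg.2
  rw [h3, Subgroup.card_bot, mul_one] at h2
  have h4 : Nat.card P = Nat.card (⊤ : Subgroup P) := Subgroup.card_top.symm
  rw [h4, ← h1, ← h2]
  exact Nat.mul_le_mul_left _ (card_le_card (orb_mono le_top c))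

/-- The bound for the orbits. -/
theorem orb_bound (h : Des v k lam B) (hlam : 1 ≤ lam) (hi : Inc B f e)
    (hf : Function.Injective f) (a : Vx v) :
    (∃ x, ps f x = ⊥) ∨ (∃ i, ps e i = ⊥) ∨ Nat.card P ≤ 2 * k * lam ∨
      (lam : ℝ) * (@orb P (Vx v) _ (act f e) _ (⊤ : Subgroup P) a).card ≤
        k + 2 * lam ^ 2 * Real.sqrt (2 * lam + 1) * Real.sqrt k := by
  classical
  rcases vx_cases a with ⟨x, rfl⟩ | ⟨i, rfl⟩
  · rw [orb_pt, card_image_of_injective _ (fun x y hxy => pt_inj hxy)]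
    rcases po_le h hlam hi hf x with h1 | h1 | h1
    · exact Or.inl ⟨x, h1⟩
    · exact Or.inr (Or.inr (Or.inl h1))
    · exact Or.inr (Or.inr (Or.inr h1))
  · rw [orb_bl, card_image_of_injective _ (fun x y hxy => bl_inj hxy)]
    rcases po_le (des_dual h hlam) hlam (inc_dual hi) (inj_e h hlam hi hf) i with h1 | h1 | h1
    · exact Or.inr (Or.inl ⟨i, h1⟩)
    · exact Or.inr (Or.inr (Or.inl h1))
    · exact Or.inr (Or.inr (Or.inr h1))

theorem numer (h : Des v k lam B) (hlam : 1 ≤ lam) (hk : 2 ^ 51 * lam ^ 9 ≤ k) {N a c : ℕ}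
    (hN : N ≤ a * c)
    (ha : (lam : ℝ) * a ≤ k + 2 * lam ^ 2 * Real.sqrt (2 * lam + 1) * Real.sqrt k)
    (hc : (lam : ℝ) * c ≤ k + 2 * lam ^ 2 * Real.sqrt (2 * lam + 1) * Real.sqrt k) :
    2 ^ 20 * lam * N ≤ (2 ^ 20 + 1) * v := by
  have hk0 : (0 : ℝ) ≤ k := Nat.cast_nonneg _
  have hl1 : (1 : ℝ) ≤ lam := by exact_mod_cast hlam
  have hl69 : lam ^ 6 ≤ lam ^ 9 := Nat.pow_le_pow_right hlam (by norm_num)
  have hs : Real.sqrt k * Real.sqrt k = k := Real.mul_self_sqrt hk0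
  have hs0 : 0 ≤ Real.sqrt k := Real.sqrt_nonneg _
  have h1 : Real.sqrt (2 * lam + 1) ≤ 2 * lam := by
    rw [Real.sqrt_le_left (by positivity)]
    nlinarith
  have h2 : (2 : ℝ) ^ 25 * lam ^ 3 ≤ Real.sqrt k := by
    apply Real.le_sqrt_of_sq_le
    have h3 : 2 ^ 50 * lam ^ 6 ≤ k := by omega
    have h4 : (2 : ℝ) ^ 50 * lam ^ 6 ≤ k := by exact_mod_cast h3
    calc ((2 : ℝ) ^ 25 * (lam : ℝ) ^ 3) ^ 2 = 2 ^ 50 * (lam : ℝ) ^ 6 := by ring
      _ ≤ (k : ℝ) := h4
  have hF : (k : ℝ) + 2 * lam ^ 2 * Real.sqrt (2 * lam + 1) * Real.sqrt k ≤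
      (1 + 1 / 2 ^ 23) * k := by
    have h3 : 2 * (lam : ℝ) ^ 2 * Real.sqrt (2 * lam + 1) ≤ 2 * lam ^ 2 * (2 * lam) :=
      mul_le_mul_of_nonneg_left h1 (by positivity)
    have h4 : 2 * (lam : ℝ) ^ 2 * Real.sqrt (2 * lam + 1) ≤ Real.sqrt k / 2 ^ 23 := by
      rw [le_div_iff₀ (by positivity)]
      calc 2 * (lam : ℝ) ^ 2 * Real.sqrt (2 * lam + 1) * 2 ^ 23 ≤
            2 * lam ^ 2 * (2 * lam) * 2 ^ 23 := mul_le_mul_of_nonneg_right h3 (by positivity)
        _ = 2 ^ 25 * lam ^ 3 := by ring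
        _ ≤ _ := h2
    have h5 := mul_le_mul_of_nonneg_right h4 hs0
    have h6 : Real.sqrt k / 2 ^ 23 * Real.sqrt k = k / 2 ^ 23 := by
      rw [div_mul_eq_mul_div, hs]
    rw [h6] at h5
    linarith
  have hF0 : (0 : ℝ) ≤ (1 + 1 / 2 ^ 23) * k := by positivity
  have ha' := ha.trans hF
  have hc' := hc.trans hF
  have hN' : (N : ℝ) ≤ a * c := by exact_mod_cast hN
  have h7 : (lam : ℝ) ^ 2 * N ≤ ((1 + 1 / 2 ^ 23) * k) * ((1 + 1 / 2 ^ 23) * k) := by
    calc (lam : ℝ) ^ 2 * N ≤ lam ^ 2 * (a * c) := mul_le_mul_of_nonneg_left hN' (by positivity)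
      _ = (lam * a) * (lam * c) := by ring
      _ ≤ _ := mul_le_mul ha' hc' (by positivity) hF0
  have hkk := h.count hlam
  have hv1 : (k : ℝ) * k ≤ lam * v + k := by
    have : k * k ≤ lam * v + k := by
      rw [hkk]
      exact Nat.add_le_add_right (Nat.mul_le_mul_left _ (Nat.sub_le _ _)) _
    exact_mod_cast this
  have hk51 : (2 : ℝ) ^ 51 ≤ k := by
    have hl9 : 1 ≤ lam ^ 9 := Nat.pow_pos (by omega)
    have : 2 ^ 51 ≤ k := by omega
    exact_mod_cast this
  have hk52 : (2 : ℝ) ^ 51 * k ≤ k * k := mul_le_mul_of_nonneg_right hk51 hk0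
  have h8 : (2 : ℝ) ^ 20 * (lam ^ 2 * N) ≤ (2 ^ 20 + 1) * (lam * v) := by
    have hkk0 : (0 : ℝ) ≤ k * k := mul_self_nonneg _
    have e1 : ((1 + 1 / 2 ^ 23) * (k : ℝ)) * ((1 + 1 / 2 ^ 23) * k) =
      (1 + 1 / 2 ^ 22 + 1 / 2 ^ 46) * (k * k) := by ring
    rw [e1] at h7
    norm_num at h7 hk52 ⊢
    linarith
  have h9 : (lam : ℝ) * (2 ^ 20 * lam * N) ≤ lam * ((2 ^ 20 + 1) * v) := by
    calc (lam : ℝ) * (2 ^ 20 * lam * N) = 2 ^ 20 * (lam ^ 2 * N) := by ring
      _ ≤ _ := h8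
      _ = _ := by ring
  have h10 := le_of_mul_le_mul_left h9 (by linarith : (0 : ℝ) < lam)
  exact_mod_cast h10

/-- The order of an abelian group of automorphisms. -/
theorem ab_order (h : Des v k lam B) (hlam : 1 ≤ lam) (hi : Inc B f e)
    (hf : Function.Injective f) (hk : 2 ^ 51 * lam ^ 9 ≤ k) :
    (∃ x, ps f x = ⊥) ∨ (∃ i, ps e i = ⊥) ∨ 2 ^ 20 * lam * Nat.card P ≤ (2 ^ 20 + 1) * v := by
  obtain ⟨a, c, hac⟩ := card_le_orbs h hlam hi hf hk
  have h2k : Nat.card P ≤ 2 * k * lam → 2 ^ 20 * lam * Nat.card P ≤ (2 ^ 20 + 1) * v := by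
    intro h1
    have hkk := h.count hlam
    have hl3 : lam ^ 3 ≤ lam ^ 9 := Nat.pow_le_pow_right hlam (by norm_num)
    have h4 : 4 * lam ^ 3 ≤ k := by omega
    have h5 : k * k ≤ lam * v + k := by
      rw [hkk]
      exact Nat.add_le_add_right (Nat.mul_le_mul_left _ (Nat.sub_le _ _)) _
    have h6 : k * k ≤ 2 * (lam * v) := by
      have hk2 : 2 * k ≤ k * k := Nat.mul_le_mul_right _ h.two_le
      omega
    have h7 : 4 * lam ^ 3 * k ≤ 2 * (lam * v) := (Nat.mul_le_mul_right _ h4).trans h6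
    have h8 : lam * (2 * lam ^ 2 * k) ≤ lam * v := by
      have e1 : 4 * lam ^ 3 * k = 2 * (lam * (2 * lam ^ 2 * k)) := by ring
      rw [e1] at h7
      omega
    have h9 := Nat.le_of_mul_le_mul_left h8 (by omega : 0 < lam)
    calc 2 ^ 20 * lam * Nat.card P ≤ 2 ^ 20 * lam * (2 * k * lam) := Nat.mul_le_mul_left _ h1
      _ = 2 ^ 20 * (2 * lam ^ 2 * k) := by ring
      _ ≤ 2 ^ 20 * v := Nat.mul_le_mul_left _ h9
      _ ≤ _ := Nat.mul_le_mul_right _ (by norm_num)
  rcases orb_bound h hlam hi hf a with h1 | h1 | h1 | h1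
  · exact Or.inl h1
  · exact Or.inr (Or.inl h1)
  · exact Or.inr (Or.inr (h2k h1))
  · rcases orb_bound h hlam hi hf c with h2 | h2 | h2 | h2
    · exact Or.inl h2
    · exact Or.inr (Or.inl h2)
    · exact Or.inr (Or.inr (h2k h2))
    · exact Or.inr (Or.inr (numer h hlam hk hac h1 h2))

theorem card_le_v (x : Fin v) (hx : ps f x = ⊥) : Nat.card P ≤ v := by
  rw [← card_po (f := f) x, hx, Subgroup.card_bot, mul_one]
  exact (card_le_univ _).trans (by rw [Fintype.card_fin])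

end

end Run7.h33.AB
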