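import Pool.Agent.Run7.h33.AB.SymAb

/-!
# Groups of automorphisms of symmetric designs: the order
-/

set_option autoImplicit false
set_option linter.unusedSectionVars false

namespace Run7.h33.AB

open SimpleGraph Finset MulAction Run7.h33.NM Run7.h33.LL Pool.Agent.N345.Sym

section

variable {P : Type} [CommGroup P] [Finite P] {v k lam : ℕ} {B : Fin v → Finset (Fin v)}
  {f e : P →* Equiv.Perm (Fin v)}

theorem ab_le_v (h : Des v k lam B) (hlam : 2 ≤ lam) (hi : Inc B f e)
    (hf : Function.Injective f) (hk : 2 ^ 51 * lam ^ 9 ≤ k) : Nat.card P ≤ v := by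
  rcases ab_order h (by omega) hi hf hk with ⟨x, hx⟩ | ⟨i, hx⟩ | h1
  · exact card_le_v x hx
  · exact card_le_v i hx
  · have h2 : 2 ^ 20 * 2 * Nat.card P ≤ 2 ^ 20 * lam * Nat.card P :=
      Nat.mul_le_mul_right _ (Nat.mul_le_mul_left _ hlam)
    omega

end

section

variable {P : Type} [Group P] [Finite P] {v k lam : ℕ} {B : Fin v → Finset (Fin v)}
  {f e : P →* Equiv.Perm (Fin v)}

theorem sub_le_v (h : Des v k lam B) (hlam : 2 ≤ lam) (hi : Inc B f e)
    (hf : Function.Injective f) (hk : 2 ^ 51 * lam ^ 9 ≤ k) (M : Subgroup P)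
    (hM : ∀ a ∈ M, ∀ b ∈ M, a * b = b * a) : Nat.card M ≤ v := by
  let _ : CommGroup M :=
    { (inferInstance : Group M) with mul_comm := fun a b => Subtype.ext (hM a a.2 b b.2) }
  refine ab_le_v (P := M) (f := f.comp M.subtype) (e := e.comp M.subtype) h hlam ?_ ?_ hk
  · intro g x i hx
    exact hi g.1 x i hx
  · exact hf.comp M.subtype_injective

theorem pgrp (h : Des v k lam B) (hlam : 2 ≤ lam) (hi : Inc B f e)
    (hf : Function.Injective f) (hk : 2 ^ 51 * lam ^ 9 ≤ k) {p : ℕ} [Fact p.Prime]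
    (hP : IsPGroup p P) : Nat.card P ≤ v ^ (Nat.log 2 v + 1) :=
  card_pgroup hP fun M hM => sub_le_v h hlam hi hf hk M hM

theorem adj_act (hi : Inc B f e) (g : P) {a b : Vx v} (hab : (dgr B).Adj a b) :
    (dgr B).Adj ((act f e).smul g a) ((act f e).smul g b) := by
  obtain ⟨x, i, hx, h1 | h1⟩ := hab
  · exact ⟨f g x, e g i, hi g x i hx, Or.inl ⟨by rw [h1.1]; rfl, by rw [h1.2]; rfl⟩⟩
  · exact ⟨f g x, e g i, hi g x i hx, Or.inr ⟨by rw [h1.1]; rfl, by rw [h1.2]; rfl⟩⟩

/-- The automorphism of the incidence graph. -/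
def isoOf (hi : Inc B f e) (g : P) : dgr B ≃g dgr B where
  toEquiv := @MulAction.toPerm P (Vx v) _ (act f e) g
  map_rel_iff' := by
    intro a b
    let _ : MulAction P (Vx v) := act f e
    constructor
    · intro h
      have h1 := adj_act hi g⁻¹ h
      have e1 : ∀ c : Vx v, (act f e).smul g⁻¹ ((@MulAction.toPerm P (Vx v) _ (act f e) g) c) = c :=
        fun c => inv_smul_smul g c
      rw [e1, e1] at h1
      exact h1
    · intro h
      exact adj_act hi g h

theorem isoOf_iter (hi : Inc B f e) (g : P) (m : ℕ) (a : Vx v) :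
    (⇑(isoOf hi g))^[m] a = (act f e).smul (g ^ m) a := by
  let _ : MulAction P (Vx v) := act f e
  induction m with
  | zero =>
    rw [pow_zero]
    exact (one_smul P a).symm
  | succ m ih =>
    rw [Function.iterate_succ_apply', ih, pow_succ']
    exact (mul_smul g (g ^ m) a).symm

/-- The stabilizer of a set of points and blocks. -/
def sst (f e : P →* Equiv.Perm (Fin v)) (S : Finset (Vx v)) : Subgroup P where
  carrier := {g | ∀ z ∈ S, (act f e).smul g z = z}
  one_mem' := by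
    let _ : MulAction P (Vx v) := act f e
    intro z _
    exact one_smul P z
  mul_mem' := by
    let _ : MulAction P (Vx v) := act f e
    intro a b ha hb z hz
    have h1 : (act f e).smul b z = z := hb z hz
    have h2 : (act f e).smul a z = z := ha z hz
    calc (act f e).smul (a * b) z = (act f e).smul a ((act f e).smul b z) := mul_smul a b z
      _ = z := by rw [h1, h2]
  inv_mem' := by
    let _ : MulAction P (Vx v) := act f e
    intro a ha z hz
    have h2 : (act f e).smul a z = z := ha z hz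
    calc (act f e).smul a⁻¹ z = (act f e).smul a⁻¹ ((act f e).smul a z) := by rw [h2]
      _ = z := inv_smul_smul a z

theorem allgrp (h : Des v k lam B) (hlam : 2 ≤ lam) (hi : Inc B f e)
    (hf : Function.Injective f) (hk : 2 ^ 51 * lam ^ 9 ≤ k) :
    Nat.card P ≤ (2 * v) ^ (40000 * lam * (Nat.log 2 lam + 1 + Nat.log 2 (Nat.log 2 (2 * v)))) *
      (v ^ (Nat.log 2 v + 1)) ^ lam := by
  classical
  have hlam1 : 1 ≤ lam := by omega
  have hv0 : 0 < v := by
    have := h.lt
    omega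
  have hcn := cn_dgr h hlam1
  have hG : ∀ a b : Vx v, a ≠ b → ((dgr B).commonNeighbors a b).ncard ≤ lam := by
    intro a b hab
    refine le_trans (le_of_eq ?_) (hcn a b hab)
    rw [← Set.ncard_coe_finset]
    congr 1
    ext w
    rw [mem_coe, mem_inter, mem_nb, mem_nb]
    rfl
  have hd : ∀ a : Vx v, k ≤ ((dgr B).neighborSet a).ncard := by
    intro a
    rw [← card_nb, deg_dgr h hlam1]
  have hn : Fintype.card (Vx v) ≤ 1 * k ^ 2 := by
    rw [card_vx, one_mul, sq]
    exact (Nat.mul_le_mul_right v hlam).trans (h.lam_v hlam1)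
  obtain ⟨S, hS, hgen⟩ := main_gen h.two_le le_rfl hlam1 hG hd hn
  have hS' : S.card ≤ 40000 * lam * (Nat.log 2 lam + 1 + Nat.log 2 (Nat.log 2 (2 * v))) := by
    rw [card_vx, mul_one, mul_one, one_mul] at hS
    exact hS
  let _ : MulAction P (Vx v) := act f e
  have h1 : Nat.card P ≤ Fintype.card (Vx v) ^ S.card * Nat.card (sst f e S) :=
    card_le_pow S (sst f e S) fun g hg => hg
  have h2 : Nat.card (sst f e S) ≤ (v ^ (Nat.log 2 v + 1)) ^ lam := by
    refine card_of_sylow (Nat.pow_pos hv0) ?_ ?_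
    · intro p hp hdvd
      by_contra hcon
      push Not at hcon
      have : Fact p.Prime := ⟨hp⟩
      obtain ⟨g, hg⟩ := exists_prime_orderOf_dvd_card' p hdvd
      have h3 : g.1 ^ p = 1 := by
        have h4 : g ^ p = 1 := by rw [← hg]; exact pow_orderOf_eq_one g
        have := congrArg Subtype.val h4
        simpa using this
      have h4 : (⇑(isoOf hi g.1))^[p] = id := by
        funext a
        rw [isoOf_iter, h3]
        exact one_smul P a
      have h5 := fix_of_gen hcn hgen hp hcon (isoOf hi g.1) h4 g.2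
      have h6 : g = 1 := by
        refine Subtype.ext (hf ?_)
        have h7 : f g.1 = 1 := by
          ext x
          have h8 : f g.1 x = x := pt_inj (h5 (pt x))
          rw [h8]
          rfl
        rw [h7]
        exact (map_one f).symm
      rw [h6, orderOf_one] at hg
      exact hp.one_lt.ne hg
    · intro p hp Q hQ
      have : Fact p.Prime := ⟨hp⟩
      refine pgrp (P := Q) (f := (f.comp (sst f e S).subtype).comp Q.subtype)
        (e := (e.comp (sst f e S).subtype).comp Q.subtype) h hlam ?_ ?_ hk hQ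
      · intro g x i hx
        exact hi g.1.1 x i hx
      · exact (hf.comp (sst f e S).subtype_injective).comp Q.subtype_injective
  calc Nat.card P ≤ _ := h1
    _ ≤ (2 * v) ^ (40000 * lam * (Nat.log 2 lam + 1 + Nat.log 2 (Nat.log 2 (2 * v)))) *
        (v ^ (Nat.log 2 v + 1)) ^ lam := by
        rw [card_vx]
        exact Nat.mul_le_mul (Nat.pow_le_pow_right (by omega) hS') h2

end

theorem log_arith {v lam : ℕ} (hlam : 2 ≤ lam) (hv : 2 ^ (2 ^ 42 * lam) ≤ v) :
    (2 * v) ^ (40000 * lam * (Nat.log 2 lam + 1 + Nat.log 2 (Nat.log 2 (2 * v)))) *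
      (v ^ (Nat.log 2 v + 1)) ^ lam ≤ v ^ (2 * lam * Nat.log 2 v) := by
  have hv0 : v ≠ 0 := by
    have : 0 < 2 ^ (2 ^ 42 * lam) := Nat.pow_pos (by norm_num)
    omega
  obtain ⟨L, hL⟩ : ∃ L, L = Nat.log 2 v := ⟨_, rfl⟩
  have hL1 : 2 ^ 42 * lam ≤ L := by
    rw [hL]
    exact Nat.le_log_of_pow_le (by norm_num) hv
  have hv2 : 2 ≤ v := by
    have h1 : 1 ≤ Nat.log 2 v := by omega
    by_contra hcon
    have : Nat.log 2 v = 0 := Nat.log_of_lt (by omega)
    omega
  have hL2 : Nat.log 2 (2 * v) = L + 1 := by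
    rw [hL, mul_comm]
    exact Nat.log_mul_base (by norm_num) hv0
  obtain ⟨y, hy⟩ : ∃ y, y = Nat.log 2 (L + 1) := ⟨_, rfl⟩
  have hl : 2 ^ Nat.log 2 lam ≤ lam := Nat.pow_log_le_self 2 (by omega)
  have hy1 : 42 + Nat.log 2 lam ≤ y := by
    rw [hy]
    refine Nat.le_log_of_pow_le (by norm_num) ?_
    rw [pow_add]
    have := Nat.mul_le_mul_left (2 ^ 42) hl
    omega
  have hy2 : 2 ^ y ≤ L + 1 := by
    rw [hy]
    exact Nat.pow_log_le_self 2 (by omega)
  have hy3 : 2 ^ 18 * y ≤ 2 ^ y := by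
    obtain ⟨z, rfl⟩ : ∃ z, y = z + 36 := ⟨y - 36, by omega⟩
    have h1 : z < 2 ^ z := Nat.lt_two_pow_self
    have h2 : (2 : ℕ) ^ (z + 36) = 2 ^ 36 * 2 ^ z := by rw [pow_add, mul_comm]
    rw [h2]
    have h3 : 2 ^ 18 * (z + 36) ≤ 2 ^ 36 * (z + 1) := by omega
    exact h3.trans (Nat.mul_le_mul_left _ h1)
  have key : 80000 * (Nat.log 2 lam + 1 + y) + 1 ≤ L := by omega
  rw [hL2, ← hy, ← hL]
  have h1 : (2 * v) ^ (40000 * lam * (Nat.log 2 lam + 1 + y)) ≤
      v ^ (80000 * lam * (Nat.log 2 lam + 1 + y)) := by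
    calc (2 * v) ^ (40000 * lam * (Nat.log 2 lam + 1 + y)) ≤
          (v ^ 2) ^ (40000 * lam * (Nat.log 2 lam + 1 + y)) := by
          refine Nat.pow_le_pow_left ?_ _
          rw [sq]
          exact Nat.mul_le_mul_right _ hv2
      _ = _ := by
          rw [← pow_mul]
          congr 1
          ring
  calc (2 * v) ^ (40000 * lam * (Nat.log 2 lam + 1 + y)) * (v ^ (L + 1)) ^ lam
      ≤ v ^ (80000 * lam * (Nat.log 2 lam + 1 + y)) * (v ^ (L + 1)) ^ lam :=
        Nat.mul_le_mul_right _ h1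
    _ = v ^ (80000 * lam * (Nat.log 2 lam + 1 + y) + (L + 1) * lam) := by
        rw [← pow_mul, ← pow_add]
    _ ≤ v ^ (2 * lam * L) := by
        refine Nat.pow_le_pow_right (by omega) ?_
        calc 80000 * lam * (Nat.log 2 lam + 1 + y) + (L + 1) * lam
            = lam * (80000 * (Nat.log 2 lam + 1 + y) + 1) + lam * L := by ring
          _ ≤ lam * L + lam * L := Nat.add_le_add_right (Nat.mul_le_mul_left _ key) _
          _ = _ := by ring

section

variable {v k lam : ℕ} {B : Fin v → Finset (Fin v)}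

theorem inc_perm (h : Des v k lam B) (hlam : 1 ≤ lam) {H : Subgroup (Equiv.Perm (Fin v))}
    (hH : ∀ σ ∈ H, Aut B σ) : Inc B H.subtype (bhom h hlam hH) :=
  fun σ _ _ hx => bhom_mem h hlam hH σ hx

/-- Abelian groups. -/
theorem perm_ab (h : Des v k lam B) (hlam : 2 ≤ lam) (hk : 2 ^ 51 * lam ^ 9 ≤ k)
    {H : Subgroup (Equiv.Perm (Fin v))} (hH : ∀ σ ∈ H, Aut B σ)
    (hc : ∀ σ ∈ H, ∀ τ ∈ H, σ * τ = τ * σ) :
    Nat.card H ≤ v ∧ ((∃ x, ∀ σ ∈ H, σ x = x → σ = 1) ∨
      (∃ i, ∀ σ ∈ H, (B i).image σ = B i → σ = 1) ∨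
      2 ^ 20 * lam * Nat.card H ≤ (2 ^ 20 + 1) * v) := by
  let _ : CommGroup H :=
    { (inferInstance : Group H) with mul_comm := fun a b => Subtype.ext (hc a a.2 b b.2) }
  have hlam1 : 1 ≤ lam := by omega
  refine ⟨ab_le_v h hlam (inc_perm h hlam1 hH) H.subtype_injective hk, ?_⟩
  rcases ab_order h hlam1 (inc_perm h hlam1 hH) H.subtype_injective hk with
    ⟨x, hx⟩ | ⟨i, hx⟩ | h1
  · refine Or.inl ⟨x, fun σ hσ hσx => ?_⟩
    have h2 : (⟨σ, hσ⟩ : H) ∈ ps H.subtype x := hσx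
    rw [hx, Subgroup.mem_bot] at h2
    exact congrArg Subtype.val h2
  · refine Or.inr (Or.inl ⟨i, fun σ hσ hσx => ?_⟩)
    have h2 : (⟨σ, hσ⟩ : H) ∈ ps (bhom h hlam1 hH) i := by
      rw [mem_ps]
      refine h.inj hlam1 ?_
      change B (blk hH ⟨σ, hσ⟩ i) = B i
      rw [← blk_spec hH ⟨σ, hσ⟩ i]
      exact hσx
    rw [hx, Subgroup.mem_bot] at h2
    exact congrArg Subtype.val h2
  · exact Or.inr (Or.inr h1)

theorem perm_p (h : Des v k lam B) (hlam : 2 ≤ lam) (hk : 2 ^ 51 * lam ^ 9 ≤ k)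
    {H : Subgroup (Equiv.Perm (Fin v))} (hH : ∀ σ ∈ H, Aut B σ) {p : ℕ} (hp : p.Prime)
    (hP : IsPGroup p H) : Nat.card H ≤ v ^ (Nat.log 2 v + 1) := by
  have : Fact p.Prime := ⟨hp⟩
  exact pgrp h hlam (inc_perm h (by omega) hH) H.subtype_injective hk hP

theorem perm_all (h : Des v k lam B) (hlam : 2 ≤ lam) (hv : 2 ^ (2 ^ 42 * lam) ≤ v)
    (hk : 2 ^ 51 * lam ^ 9 ≤ k)
    {H : Subgroup (Equiv.Perm (Fin v))} (hH : ∀ σ ∈ H, Aut B σ) :
    Nat.card H ≤ v ^ (2 * lam * Nat.log 2 v) :=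
  (allgrp h hlam (inc_perm h (by omega) hH) H.subtype_injective hk).trans (log_arith hlam hv)

end

end Run7.h33.AB
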