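import Pool.Agent.Run7.h33.AB.SymAll
import Pool.Agent.Run7.h33.AB.Ser

/-!
# Groups of automorphisms of symmetric designs: bases and order
-/

set_option autoImplicit false
set_option linter.unusedSectionVars false

namespace Run7.h33.AB

open SimpleGraph Finset MulAction Run7.h33.NM Run7.h33.LL Pool.Agent.N345.Sym

section

variable {P : Type} [Group P] [Finite P] {v k lam : ℕ} {B : Fin v → Finset (Fin v)}
  {f e : P →* Equiv.Perm (Fin v)}

/-- Abelian subgroups have bases of two points or blocks. -/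
theorem hab_des (h : Des v k lam B) (hlam : 1 ≤ lam) (hi : Inc B f e)
    (hf : Function.Injective f) (hk : 2 ^ 51 * lam ^ 9 ≤ k) (M : Subgroup P)
    (hM : ∀ a ∈ M, ∀ b ∈ M, a * b = b * a) : ∃ S : Finset (Vx v), S.card ≤ 2 ∧
      ∀ g ∈ M, (∀ z ∈ S, (act f e).smul g z = z) → g = 1 := by
  let _ : CommGroup M :=
    { (inferInstance : Group M) with mul_comm := fun a b => Subtype.ext (hM a a.2 b b.2) }
  obtain ⟨a, c, hac⟩ := base_two (P := M) (f := f.comp M.subtype) (e := e.comp M.subtype) h hlam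
    (fun g x i hx => hi g.1 x i hx) (hf.comp M.subtype_injective) hk
  refine ⟨{a, c}, card_le_two, fun g hg hS => ?_⟩
  have h1 := hac ⟨g, hg⟩ (hS a (mem_insert_self _ _))
    (hS c (mem_insert_of_mem (mem_singleton_self _)))
  exact congrArg Subtype.val h1

theorem faithful_des (hf : Function.Injective f) : @FaithfulSMul P (Vx v) (act f e).toSMul := by
  let _ : MulAction P (Vx v) := act f e
  refine ⟨fun {g g'} hgg => hf ?_⟩
  ext x
  have h1 : pt (f g x) = pt (f g' x) := hgg (pt x)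
  rw [pt_inj h1]

/-- Groups with given derived length. -/
theorem des_der (h : Des v k lam B) (hlam : 1 ≤ lam) (hi : Inc B f e)
    (hf : Function.Injective f) (hk : 2 ^ 51 * lam ^ 9 ≤ k) (d : ℕ)
    (hd : derivedSeries P d = ⊥) : Nat.card P ≤ (2 * v) ^ (2 * d) := by
  let _ : MulAction P (Vx v) := act f e
  have hv0 : 0 < v := by
    have := h.lt
    omega
  have htop : derivedSeries (⊤ : Subgroup P) d = ⊥ := by
    rw [Subgroup.eq_bot_iff_forall]
    intro q hq
    have h1 := map_derivedSeries_le_derivedSeries (⊤ : Subgroup P).subtype d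
      (Subgroup.mem_map_of_mem _ hq)
    rw [hd, Subgroup.mem_bot] at h1
    exact Subtype.ext h1
  obtain ⟨S, h1, h2⟩ := base_der (Γ := P) (V := Vx v) (hab_des h hlam hi hf hk) d ⊤ htop
  have h3 := card_le_pow (Γ := P) (V := Vx v) S ⊥ (fun g hg => by
    rw [Subgroup.mem_bot]
    exact h2 g (Subgroup.mem_top _) hg)
  rw [Subgroup.card_bot, mul_one, card_vx] at h3
  refine h3.trans (Nat.pow_le_pow_right (by omega) ?_)
  rw [mul_comm 2 d]
  exact h1

/-- Nilpotent groups. -/
theorem des_nil (h : Des v k lam B) (hlam : 1 ≤ lam) (hi : Inc B f e)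
    (hf : Function.Injective f) (hk : 2 ^ 51 * lam ^ 9 ≤ k) [Group.IsNilpotent P] :
    Nat.card P ≤ (2 * v) ^ (4 * Nat.log 2 (Nat.log 2 (2 * v)) + 20) := by
  let _ : MulAction P (Vx v) := act f e
  have hv0 : 0 < v := by
    have := h.lt
    omega
  have hnil : Group.IsNilpotent (⊤ : Subgroup P) :=
    inferInstance
  obtain ⟨S, h1, h2⟩ := base_nil (Γ := P) (V := Vx v) (hab_des h hlam hi hf hk) ⊤ (by norm_num)
    (by
      rw [card_vx]
      omega)
  have h3 := card_le_pow (Γ := P) (V := Vx v) S ⊥ (fun g hg => by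
    rw [Subgroup.mem_bot]
    exact h2 g (Subgroup.mem_top _) hg)
  rw [Subgroup.card_bot, mul_one, card_vx] at h3
  rw [card_vx] at h1
  refine h3.trans (Nat.pow_le_pow_right (by omega) (h1.trans ?_))
  have e1 : Nat.log 2 2 = 1 := by
    have h := Nat.log_pow (b := 2) (by norm_num) 1
    rwa [pow_one] at h
  rw [e1]
  omega

/-- All groups. -/
theorem des_all (h : Des v k lam B) (hlam : 2 ≤ lam) (hi : Inc B f e)
    (hf : Function.Injective f) (hk : 2 ^ 51 * lam ^ 9 ≤ k) :
    Nat.card P ≤ (2 * v) ^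
      (40020 * lam * (Nat.log 2 lam + 1 + Nat.log 2 (Nat.log 2 (2 * v)))) := by
  classical
  let _ : MulAction P (Vx v) := act f e
  have hfa : FaithfulSMul P (Vx v) := faithful_des hf
  have hlam1 : 1 ≤ lam := by omega
  have hv0 : 0 < v := by
    have := h.lt
    omega
  have hcn := cn_dgr h hlam1
  have hG : ∀ a b : Vx v, a ≠ b → ((dgr B).commonNeighbors a b).ncard ≤ lam := by
    intro a b hab
    refine le_trans (le_of_eq ?_) (hcn a b hab)
    rw [← Set.ncard_coe_finset]
    congr 1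
    ext w
    rw [mem_coe, mem_inter, mem_nb, mem_nb]
    rfl
  have hd : ∀ a : Vx v, k ≤ ((dgr B).neighborSet a).ncard := by
    intro a
    rw [← card_nb, deg_dgr h hlam1]
  have hn : Fintype.card (Vx v) ≤ 1 * k ^ 2 := by
    rw [card_vx, one_mul, sq]
    exact (Nat.mul_le_mul_right v hlam).trans (h.lam_v hlam1)
  obtain ⟨S, hS, hgen⟩ := main_gen h.two_le le_rfl hlam1 hG hd hn
  have hS' : S.card ≤ 40000 * lam * (Nat.log 2 lam + 1 + Nat.log 2 (Nat.log 2 (2 * v))) := by
    rw [card_vx, mul_one, mul_one, one_mul] at hS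
    exact hS
  have h1 := order_le (Γ := P) (V := Vx v) (t := lam) (hab_des h hlam1 hi hf hk) (by norm_num)
    (by
      rw [card_vx]
      omega) S (sst f e S) (fun g hg => hg) (by
      intro p hp hdvd
      by_contra hcon
      push Not at hcon
      have : Fact p.Prime := ⟨hp⟩
      obtain ⟨g, hg⟩ := exists_prime_orderOf_dvd_card' p hdvd
      have h3 : g.1 ^ p = 1 := by
        have h4 : g ^ p = 1 := by rw [← hg]; exact pow_orderOf_eq_one g
        have := congrArg Subtype.val h4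
        simpa using this
      have h4 : (⇑(isoOf hi g.1))^[p] = id := by
        funext a
        rw [isoOf_iter, h3]
        exact one_smul P a
      have h5 := fix_of_gen hcn hgen hp hcon (isoOf hi g.1) h4 g.2
      have h6 : g = 1 := by
        refine Subtype.ext (hf ?_)
        have h7 : f g.1 = 1 := by
          ext x
          have h8 : f g.1 x = x := pt_inj (h5 (pt x))
          rw [h8]
          rfl
        rw [h7]
        exact (map_one f).symm
      rw [h6, orderOf_one] at hg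
      exact hp.one_lt.ne hg)
  rw [card_vx] at h1
  refine h1.trans (Nat.pow_le_pow_right (by omega) ?_)
  have e1 : Nat.log 2 2 = 1 := by
    have h := Nat.log_pow (b := 2) (by norm_num) 1
    rwa [pow_one] at h
  rw [e1]
  obtain ⟨l, hl⟩ : ∃ l, l = Nat.log 2 (Nat.log 2 (2 * v)) := ⟨_, rfl⟩
  rw [← hl] at hS' ⊢
  calc S.card + lam * (2 * (2 * l + 2 * 1 + 8)) ≤
        40000 * lam * (Nat.log 2 lam + 1 + l) + lam * (20 * (Nat.log 2 lam + 1 + l)) :=
        Nat.add_le_add hS' (Nat.mul_le_mul_left _ (by omega))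
    _ = _ := by ring

end

theorem ll_arith {v lam : ℕ} (hlam : 2 ≤ lam) (hv : 2 ^ (4 * lam) ≤ v) :
    (2 * v) ^ (40020 * lam * (Nat.log 2 lam + 1 + Nat.log 2 (Nat.log 2 (2 * v)))) ≤
      v ^ (2 ^ 18 * lam * Nat.log 2 (Nat.log 2 v)) := by
  have hpos : 0 < 2 ^ (4 * lam) := Nat.pow_pos (by norm_num)
  have hv0 : v ≠ 0 := by omega
  obtain ⟨L, hL⟩ : ∃ L, L = Nat.log 2 v := ⟨_, rfl⟩
  have hL1 : 4 * lam ≤ L := by
    rw [hL]
    exact Nat.le_log_of_pow_le (by norm_num) hv
  have hv2 : 2 ≤ v := by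
    by_contra hcon
    have : Nat.log 2 v = 0 := Nat.log_of_lt (by omega)
    omega
  have hL2 : Nat.log 2 (2 * v) = L + 1 := by
    rw [hL, mul_comm]
    exact Nat.log_mul_base (by norm_num) hv0
  obtain ⟨y, hy⟩ : ∃ y, y = Nat.log 2 L := ⟨_, rfl⟩
  have hl : 2 ^ Nat.log 2 lam ≤ lam := Nat.pow_log_le_self 2 (by omega)
  have hy1 : 2 + Nat.log 2 lam ≤ y := by
    rw [hy]
    refine Nat.le_log_of_pow_le (by norm_num) ?_
    rw [pow_add]
    have := Nat.mul_le_mul_left (2 ^ 2) hl
    omega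
  have hy2 : Nat.log 2 (L + 1) ≤ y + 1 := by
    rw [hy]
    have h1 : L < 2 ^ (Nat.log 2 L + 1) := Nat.lt_pow_succ_log_self (by norm_num) L
    have h2 : L + 1 ≤ 2 ^ (Nat.log 2 L + 1) := h1
    calc Nat.log 2 (L + 1) ≤ Nat.log 2 (2 ^ (Nat.log 2 L + 1)) := Nat.log_mono_right h2
      _ = Nat.log 2 L + 1 := Nat.log_pow (by norm_num) _
  rw [hL2, ← hL, ← hy]
  calc (2 * v) ^ (40020 * lam * (Nat.log 2 lam + 1 + Nat.log 2 (L + 1))) ≤
        (v ^ 2) ^ (40020 * lam * (Nat.log 2 lam + 1 + Nat.log 2 (L + 1))) := by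
        refine Nat.pow_le_pow_left ?_ _
        rw [sq]
        exact Nat.mul_le_mul_right _ hv2
    _ = v ^ (2 * (40020 * lam * (Nat.log 2 lam + 1 + Nat.log 2 (L + 1)))) := by rw [← pow_mul]
    _ ≤ v ^ (2 ^ 18 * lam * y) := by
        refine Nat.pow_le_pow_right (by omega) ?_
        calc 2 * (40020 * lam * (Nat.log 2 lam + 1 + Nat.log 2 (L + 1))) ≤
              2 * (40020 * lam * (2 * y)) := by
              refine Nat.mul_le_mul_left _ (Nat.mul_le_mul_left _ ?_)
              omega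
          _ = 160080 * (lam * y) := by ring
          _ ≤ 2 ^ 18 * (lam * y) := Nat.mul_le_mul_right _ (by norm_num)
          _ = _ := by ring

section

variable {v k lam : ℕ} {B : Fin v → Finset (Fin v)}

theorem perm_der (h : Des v k lam B) (hlam : 1 ≤ lam) (hk : 2 ^ 51 * lam ^ 9 ≤ k)
    {H : Subgroup (Equiv.Perm (Fin v))} (hH : ∀ σ ∈ H, Aut B σ) (d : ℕ)
    (hd : derivedSeries H d = ⊥) : Nat.card H ≤ (2 * v) ^ (2 * d) :=
  des_der h hlam (inc_perm h hlam hH) H.subtype_injective hk d hd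

theorem perm_nil (h : Des v k lam B) (hlam : 1 ≤ lam) (hk : 2 ^ 51 * lam ^ 9 ≤ k)
    {H : Subgroup (Equiv.Perm (Fin v))} (hH : ∀ σ ∈ H, Aut B σ) (hn : Group.IsNilpotent H) :
    Nat.card H ≤ (2 * v) ^ (4 * Nat.log 2 (Nat.log 2 (2 * v)) + 20) :=
  des_nil h hlam (inc_perm h hlam hH) H.subtype_injective hk

theorem perm_all_ll (h : Des v k lam B) (hlam : 2 ≤ lam) (hk : 2 ^ 51 * lam ^ 9 ≤ k)
    {H : Subgroup (Equiv.Perm (Fin v))} (hH : ∀ σ ∈ H, Aut B σ) :
    Nat.card H ≤ (2 * v) ^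
      (40020 * lam * (Nat.log 2 lam + 1 + Nat.log 2 (Nat.log 2 (2 * v)))) :=
  des_all h hlam (inc_perm h (by omega) hH) H.subtype_injective hk

end

end Run7.h33.AB
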